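import Pool.Agent.Helper8.ND.Sets

/-!
# Natural density of the invariant sets of `T`
-/

set_option autoImplicit false

namespace Pool.Agent.Helper8.ND

open Pool.Agent.Helper68.Moeller Pool.Agent.Helper52.Tao

/-- The number of positive elements `≤ x`. -/
noncomputable def cN (G : Set ℤ) (x : ℝ) : ℝ := ({n : ℤ | n ∈ G ∧ 0 < n ∧ (n : ℝ) ≤ x}.ncard : ℝ)

/-- The number of positive elements `< x`. -/
noncomputable def cL (G : Set ℤ) (x : ℝ) : ℝ := ({n : ℤ | n ∈ G ∧ 0 < n ∧ (n : ℝ) < x}.ncard : ℝ)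

theorem finite_cN (G : Set ℤ) (x : ℝ) : {n : ℤ | n ∈ G ∧ 0 < n ∧ (n : ℝ) ≤ x}.Finite := by
  refine (Finset.finite_toSet (Finset.Icc (1 : ℤ) ⌊x⌋)).subset ?_
  rintro n ⟨_, a1, a2⟩
  rw [Finset.mem_coe, Finset.mem_Icc]
  exact ⟨a1, Int.le_floor.2 a2⟩

theorem finite_cL (G : Set ℤ) (x : ℝ) : {n : ℤ | n ∈ G ∧ 0 < n ∧ (n : ℝ) < x}.Finite :=
  (finite_cN G x).subset fun _ hn => ⟨hn.1, hn.2.1, hn.2.2.le⟩

theorem cN_nonneg (G : Set ℤ) (x : ℝ) : 0 ≤ cN G x := by unfold cN; positivity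

theorem cN_le (G : Set ℤ) {x : ℝ} (hx : 0 ≤ x) : cN G x ≤ x := by
  unfold cN
  have h1 : {n : ℤ | n ∈ G ∧ 0 < n ∧ (n : ℝ) ≤ x} ⊆ ((Finset.Icc (1 : ℤ) ⌊x⌋ : Finset ℤ) : Set ℤ) := by
    rintro n ⟨_, a1, a2⟩
    rw [Finset.mem_coe, Finset.mem_Icc]
    exact ⟨a1, Int.le_floor.2 a2⟩
  have h2 := Set.ncard_le_ncard h1 (Finset.finite_toSet _)
  rw [Set.ncard_coe_finset, Int.card_Icc] at h2
  have h3 : ((⌊x⌋ + 1 - 1).toNat : ℤ) = ⌊x⌋ := by
    rw [add_sub_cancel_right]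
    exact Int.toNat_of_nonneg (Int.floor_nonneg.2 hx)
  calc (({n : ℤ | n ∈ G ∧ 0 < n ∧ (n : ℝ) ≤ x}.ncard : ℕ) : ℝ) ≤ ((⌊x⌋ + 1 - 1).toNat : ℝ) := by
        exact_mod_cast h2
    _ = ((((⌊x⌋ + 1 - 1).toNat : ℤ)) : ℝ) := by push_cast; rfl
    _ = (⌊x⌋ : ℝ) := by rw [h3]
    _ ≤ x := Int.floor_le x

theorem cL_le_cN (G : Set ℤ) (x : ℝ) : cL G x ≤ cN G x := by
  unfold cL cN
  have h1 : {n : ℤ | n ∈ G ∧ 0 < n ∧ (n : ℝ) < x} ⊆ {n : ℤ | n ∈ G ∧ 0 < n ∧ (n : ℝ) ≤ x} :=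
    fun n hn => ⟨hn.1, hn.2.1, hn.2.2.le⟩
  exact_mod_cast Set.ncard_le_ncard h1 (finite_cN G x)

theorem cN_le_cL (G : Set ℤ) (x : ℝ) : cN G x ≤ cL G x + 1 := by
  unfold cL cN
  have h1 : {n : ℤ | n ∈ G ∧ 0 < n ∧ (n : ℝ) ≤ x} ⊆
      {n : ℤ | n ∈ G ∧ 0 < n ∧ (n : ℝ) < x} ∪ {⌊x⌋} := by
    rintro n ⟨a1, a2, a3⟩
    rcases a3.lt_or_eq with h | h
    · left; exact ⟨a1, a2, h⟩
    · right
      rw [Set.mem_singleton_iff, ← h, Int.floor_intCast]
  have h2 := (Set.ncard_le_ncard h1 ((finite_cL G x).union (Set.finite_singleton _))).trans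
    (Set.ncard_union_le _ _)
  rw [Set.ncard_singleton] at h2
  exact_mod_cast h2

theorem cL_two_mul (G : Set ℤ) {x : ℝ} (hx : 1 ≤ x) : cL G (2 * x) = cL G x + x * fd G x := by
  have hx0 : 0 < x := by linarith
  unfold fd
  rw [mul_div_cancel₀ _ hx0.ne']
  unfold cL
  have h1 : {n : ℤ | n ∈ G ∧ 0 < n ∧ (n : ℝ) < 2 * x} =
      {n : ℤ | n ∈ G ∧ 0 < n ∧ (n : ℝ) < x} ∪ {n : ℤ | x ≤ n ∧ (n : ℝ) < 2 * x ∧ n ∈ G} := by
    ext n
    simp only [Set.mem_union, Set.mem_ofPred_eq]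
    constructor
    · rintro ⟨a1, a2, a3⟩
      rcases lt_or_ge (n : ℝ) x with h | h
      · left; exact ⟨a1, a2, h⟩
      · right; exact ⟨h, a3, a1⟩
    · rintro (⟨a1, a2, a3⟩ | ⟨a1, a2, a3⟩)
      · exact ⟨a1, a2, by linarith⟩
      · refine ⟨a3, ?_, a2⟩
        have : (0 : ℝ) < n := by linarith
        exact_mod_cast this
  have h2 : Disjoint {n : ℤ | n ∈ G ∧ 0 < n ∧ (n : ℝ) < x}
      {n : ℤ | x ≤ n ∧ (n : ℝ) < 2 * x ∧ n ∈ G} := by
    refine Set.disjoint_left.2 fun n hn hn' => ?_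
    have a1 := hn.2.2
    have a2 := hn'.1
    linarith
  rw [h1, Set.ncard_union_eq h2 (finite_cL G x) (finite_Y G x)]
  push_cast
  rfl

/-- Summation over the dyadic windows. -/
theorem dyadic (G : Set ℤ) {y δ ε : ℝ} (hy : 1 ≤ y) (h : ∀ a, y ≤ a → |fd G a - δ| ≤ ε) (k : ℕ) :
    |cL G (2 ^ k * y) - δ * (2 ^ k * y)| ≤ |cL G y - δ * y| + 2 ^ k * y * ε := by
  have hε : 0 ≤ ε := (abs_nonneg _).trans (h y le_rfl)
  induction k with
  | zero =>
    rw [pow_zero, one_mul]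
    have : 0 ≤ 1 * y * ε := by positivity
    linarith
  | succ k ih =>
    have h1 : y ≤ 2 ^ k * y := le_mul_of_one_le_left (by linarith) (one_le_pow₀ (by norm_num))
    have h2 := cL_two_mul G (hy.trans h1)
    have e : (2 : ℝ) ^ (k + 1) * y = 2 * (2 ^ k * y) := by ring
    rw [e, h2]
    have h3 := h _ h1
    set x := 2 ^ k * y with hx
    have hx0 : 0 ≤ x := by linarith
    calc |cL G x + x * fd G x - δ * (2 * x)|
        = |(cL G x - δ * x) + x * (fd G x - δ)| := by congr 1; ring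
      _ ≤ |cL G x - δ * x| + |x * (fd G x - δ)| := abs_add_le _ _
      _ ≤ (|cL G y - δ * y| + x * ε) + x * ε := by
          rw [abs_mul, abs_of_nonneg hx0]
          exact add_le_add ih (mul_le_mul_of_nonneg_left h3 hx0)
      _ = |cL G y - δ * y| + 2 * x * ε := by ring

/-- The natural density of the sets invariant under `T` beyond `z`. -/
theorem density_T {d m : ℕ} (hd : 2 ≤ d) (hdm : d < m) (hco : Nat.Coprime m d)
    (hγ : (1 - 1 / (d : ℝ)) * Real.log m < Real.log d) {r : ℤ → ℤ}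
    (hr : Admissible d m r) (hmix : Mixing d m r) :
    ∃ K : ℝ, 1 ≤ K ∧ 4 ≤ Real.log K ∧ ∀ z : ℝ, 1 ≤ z → ∀ G : Set ℤ, TInv d m r G z → ∃ δ : ℝ,
      0 ≤ δ ∧ δ ≤ 2 ∧ ∀ x : ℝ, K * z ^ 16 ≤ x → |cN G x - δ * x| ≤ K * x / Real.log (Real.log x) := by
  obtain ⟨c, C, K₁, hc, hC, hK₁, hgood⟩ := good_gl hd hdm hco hr hmix
  obtain ⟨K₀, S₂, hK₀, hS₂, hconv⟩ := conv hd hdm hco hγ hc hC
  set E := Real.exp (2 * S₂ ^ 4 + 4 * K₁ + 4) with hE
  have hE0 : 0 < E := Real.exp_pos _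
  have hE1 : 1 ≤ E := Real.one_le_exp (by positivity)
  have hKE : E ≤ E + 8 * K₀ + 13 := by linarith
  refine ⟨E + 8 * K₀ + 13, by linarith, ?_, ?_⟩
  · have h1 : Real.log E ≤ Real.log (E + 8 * K₀ + 13) := Real.log_le_log hE0 hKE
    rw [hE, Real.log_exp] at h1
    have : 0 ≤ 2 * S₂ ^ 4 := by positivity
    linarith
  intro z hz G hG
  obtain ⟨δ, hδ0, hδ2, hδ⟩ := hconv _ _ (hgood z hz G hG)
  refine ⟨δ, hδ0, hδ2, ?_⟩
  intro x hx
  have hz0 : 0 < z := by linarith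
  have hlz := Real.log_nonneg hz
  have hz16 : 0 < z ^ 16 := by positivity
  have hxE : E * z ^ 16 ≤ x := by
    refine le_trans ?_ hx
    exact mul_le_mul_of_nonneg_right hKE hz16.le
  have hx0 : 0 < x := lt_of_lt_of_le (by positivity) hxE
  -- the logarithm of `x`
  set ℓ := Real.log x with hℓ
  have hℓ1 : 2 * S₂ ^ 4 + 4 * K₁ + 4 + 16 * Real.log z ≤ ℓ := by
    have h1 := Real.log_le_log (by positivity) hxE
    rw [Real.log_mul hE0.ne' hz16.ne', hE, Real.log_exp, Real.log_pow] at h1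
    push_cast at h1
    linarith
  have hS4 : 0 ≤ 2 * S₂ ^ 4 := by positivity
  have hℓ4 : 4 ≤ ℓ := by linarith
  have hℓ0 : 0 < ℓ := by linarith
  have hx1 : 1 ≤ x := by
    have h1 : 0 ≤ ℓ := hℓ0.le
    rw [hℓ, Real.log_nonneg_iff hx0] at h1
    exact h1
  -- the fourth root of `ℓ / 2`
  set s := Real.sqrt (Real.sqrt (ℓ / 2)) with hs
  have hs4 : s ^ 4 = ℓ / 2 := by
    have e1 : s ^ 2 = Real.sqrt (ℓ / 2) := Real.sq_sqrt (Real.sqrt_nonneg _)
    calc s ^ 4 = (s ^ 2) ^ 2 := by ring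
      _ = ℓ / 2 := by rw [e1]; exact Real.sq_sqrt (by positivity)
  have hs0' : 0 ≤ s := Real.sqrt_nonneg _
  have hsS : S₂ ≤ s := by
    by_contra hcon
    push Not at hcon
    have h1 : s ^ 4 < S₂ ^ 4 := pow_lt_pow_left₀ hcon hs0' (by norm_num)
    rw [hs4] at h1
    linarith
  have hs0 : 0 < s := by linarith
  have hlogs : Real.log ℓ / 8 ≤ Real.log s := by
    have h1 : 4 * Real.log s = Real.log ℓ - Real.log 2 := by
      have h2 : Real.log (s ^ 4) = 4 * Real.log s := by rw [Real.log_pow]; push_cast; ring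
      rw [← h2, hs4, Real.log_div hℓ0.ne' (by norm_num)]
    have h3 : 2 * Real.log 2 ≤ Real.log ℓ := by
      have h4 : Real.log ((2 : ℝ) ^ 2) ≤ Real.log ℓ := Real.log_le_log (by norm_num) (by linarith)
      rw [Real.log_pow] at h4
      push_cast at h4
      exact h4
    linarith
  have hll : 0 < Real.log ℓ := Real.log_pos (by linarith)
  -- the densities of the windows
  have hwin : ∀ a, Real.sqrt x ≤ a → |fd G a - δ| ≤ 8 * K₀ / Real.log ℓ := by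
    intro a ha
    have hsx : 0 < Real.sqrt x := Real.sqrt_pos.2 hx0
    have ha0 : 0 < a := by linarith
    have h1 : ℓ / 2 ≤ Real.log a := by
      have h2 := Real.log_le_log hsx ha
      rw [Real.log_sqrt hx0.le] at h2
      exact h2
    have h3 := hδ s hsS (by rw [hs4]; linarith) (Real.log a) (by rw [hs4]; exact h1)
    rw [gl_of_nonneg G (by linarith), Real.exp_log ha0] at h3
    refine h3.trans ?_
    have h4 : 0 < Real.log ℓ / 8 := by positivity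
    calc K₀ / Real.log s ≤ K₀ / (Real.log ℓ / 8) := div_le_div_of_nonneg_left hK₀.le h4 hlogs
      _ = 8 * K₀ / Real.log ℓ := by field_simp
  -- the choice of `y`
  have hsx1 : 1 ≤ Real.sqrt x := Real.one_le_sqrt.2 hx1
  obtain ⟨k, hk1, hk2⟩ := exists_nat_pow_near hsx1 (by norm_num : (1 : ℝ) < 2)
  set y := x / 2 ^ k with hy
  have h2k : (0 : ℝ) < 2 ^ k := by positivity
  have hsq : Real.sqrt x * Real.sqrt x = x := Real.mul_self_sqrt hx0.le
  have hy1 : Real.sqrt x ≤ y := by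
    rw [hy, le_div_iff₀ h2k]
    calc Real.sqrt x * 2 ^ k ≤ Real.sqrt x * Real.sqrt x :=
          mul_le_mul_of_nonneg_left hk1 (by linarith)
      _ = x := hsq
  have hy2 : y ≤ 2 * Real.sqrt x := by
    rw [hy, div_le_iff₀ h2k]
    have h1 : Real.sqrt x * Real.sqrt x ≤ Real.sqrt x * (2 ^ (k + 1)) :=
      mul_le_mul_of_nonneg_left hk2.le (by linarith)
    calc x = Real.sqrt x * Real.sqrt x := hsq.symm
      _ ≤ Real.sqrt x * (2 ^ (k + 1)) := h1
      _ = _ := by ring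
  have hxy : 2 ^ k * y = x := by rw [hy]; field_simp
  have hdy := dyadic G (hsx1.trans hy1) (fun a ha => hwin a (hy1.trans ha)) k
  rw [hxy] at hdy
  have hy0 : 0 ≤ y := by linarith
  have hyb : |cL G y - δ * y| ≤ 4 * Real.sqrt x := by
    have h1 : cL G y ≤ y := (cL_le_cN G y).trans (cN_le G hy0)
    have h2 : 0 ≤ cL G y := by unfold cL; positivity
    have h3 : δ * y ≤ 2 * y := mul_le_mul_of_nonneg_right hδ2 hy0
    have h4 : 0 ≤ δ * y := by positivity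
    rw [abs_le]
    constructor <;> linarith
  -- the errors
  have hlsx : Real.log ℓ ≤ 2 * Real.sqrt x := by
    have h1 : Real.log ℓ ≤ ℓ := by
      have := Real.log_le_sub_one_of_pos hℓ0
      linarith
    have h2 : ℓ = 2 * Real.log (Real.sqrt x) := by rw [Real.log_sqrt hx0.le]; ring
    have h3 := Real.log_le_sub_one_of_pos (by linarith : 0 < Real.sqrt x)
    linarith
  have e1 : Real.sqrt x ≤ 2 * x / Real.log ℓ := by
    rw [le_div_iff₀ hll]
    calc Real.sqrt x * Real.log ℓ ≤ Real.sqrt x * (2 * Real.sqrt x) :=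
          mul_le_mul_of_nonneg_left hlsx (by linarith)
      _ = 2 * (Real.sqrt x * Real.sqrt x) := by ring
      _ = 2 * x := by rw [hsq]
  have h5 := cL_le_cN G x
  have h6 := cN_le_cL G x
  have h7 := abs_le.1 hdy
  have h8 : x * (8 * K₀ / Real.log ℓ) = 8 * K₀ * x / Real.log ℓ := by ring
  have h9 : (E + 8 * K₀ + 13) * x / Real.log ℓ = E * x / Real.log ℓ + 8 * K₀ * x / Real.log ℓ +
      13 / 2 * (2 * x / Real.log ℓ) := by ring
  have h10 : 0 < E * x / Real.log ℓ := by positivity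
  rw [h8] at h7
  rw [h9, abs_le]
  constructor <;> linarith

end Pool.Agent.Helper8.ND
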