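import Pool.Agent.Helper52.Tao.A1

/-!
# Shifts of the binomial distribution

The number `sg v` of non-zero digits of a random word has a binomial distribution; its distribution
changes by `O(k / √T)` under a shift by `k`.
-/

set_option autoImplicit false

namespace Pool.Agent.Helper8.ND

open Pool.Agent.Helper52.Tao

/-- Sums over words: the first digit. -/
theorem sum_W_succ_nz {d : ℕ} (hd : 1 ≤ d) (T : ℕ) (f : ℕ → ℝ) :
    ∑ v ∈ W d (T + 1), f (sg v) =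
      ∑ v ∈ W d T, f (sg v) + ((d : ℝ) - 1) * ∑ v ∈ W d T, f (sg v + 1) := by
  rw [sum_W_succ]
  simp only [sg_cons]
  have h := sum_range_nz hd (fun i => ∑ w ∈ W d T, f (i + sg w))
  simp only [zero_add] at h
  rw [h]
  congr 2
  refine Finset.sum_congr rfl fun v _ => ?_
  rw [add_comm]

/-- The Stein identity. -/
theorem stein {d : ℕ} (hd : 1 ≤ d) (T : ℕ) (h : ℕ → ℝ) :
    ∑ v ∈ W d T, ((T : ℝ) - sg v) * ((d : ℝ) - 1) * h (sg v + 1) =
      ∑ v ∈ W d T, (sg v : ℝ) * h (sg v) := by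
  induction T generalizing h with
  | zero => rw [sum_W_zero, sum_W_zero]; simp
  | succ T ih =>
    have e1 := sum_W_succ_nz hd T (fun s => (((T + 1 : ℕ) : ℝ) - s) * ((d : ℝ) - 1) * h (s + 1))
    have e2 := sum_W_succ_nz hd T (fun s => (s : ℝ) * h s)
    rw [e1, e2]
    have i1 := ih h
    have i2 := ih (fun s => h (s + 1))
    have f1 : ∑ v ∈ W d T, (((T + 1 : ℕ) : ℝ) - (sg v : ℝ)) * ((d : ℝ) - 1) * h (sg v + 1) =
        ∑ v ∈ W d T, ((T : ℝ) - sg v) * ((d : ℝ) - 1) * h (sg v + 1) +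
          ((d : ℝ) - 1) * ∑ v ∈ W d T, h (sg v + 1) := by
      rw [Finset.mul_sum, ← Finset.sum_add_distrib]
      refine Finset.sum_congr rfl fun v _ => ?_
      push_cast
      ring
    have f2 : ∑ v ∈ W d T, (((T + 1 : ℕ) : ℝ) - ((sg v + 1 : ℕ) : ℝ)) * ((d : ℝ) - 1) *
        h (sg v + 1 + 1) =
        ∑ v ∈ W d T, ((T : ℝ) - sg v) * ((d : ℝ) - 1) * h (sg v + 1 + 1) := by
      refine Finset.sum_congr rfl fun v _ => ?_
      push_cast
      ring
    have f3 : ∑ v ∈ W d T, ((sg v + 1 : ℕ) : ℝ) * h (sg v + 1) =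
        ∑ v ∈ W d T, (sg v : ℝ) * h (sg v + 1) + ∑ v ∈ W d T, h (sg v + 1) := by
      rw [← Finset.sum_add_distrib]
      refine Finset.sum_congr rfl fun v _ => ?_
      push_cast
      ring
    rw [f1, f2, f3, i1, i2]
    ring

/-- The variance constant. -/
noncomputable def vv (d : ℕ) : ℝ := (1 - 1 / (d : ℝ)) * (1 / d)

theorem vv_pos {d : ℕ} (hd : 2 ≤ d) : 0 < vv d := by
  have hd' : (2 : ℝ) ≤ d := by exact_mod_cast hd
  have : 1 / (d : ℝ) ≤ 1 / 2 := one_div_le_one_div_of_le (by norm_num) hd'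
  unfold vv
  have h2 : 0 < 1 / (d : ℝ) := by positivity
  exact mul_pos (by linarith) h2

/-- Shift by one. -/
theorem shift_one {d : ℕ} (hd : 2 ≤ d) {T : ℕ} (hT : 1 ≤ T) {h : ℕ → ℝ} {B : ℝ}
    (hB : ∀ s, |h s| ≤ B) :
    |∑ v ∈ W d T, h (sg v + 1) - ∑ v ∈ W d T, h (sg v)| ≤
      B * (d : ℝ) ^ T / Real.sqrt (T * vv d) := by
  have hd' : (2 : ℝ) ≤ d := by exact_mod_cast hd
  have hd0 : (0 : ℝ) < d := by linarith
  have hT' : (1 : ℝ) ≤ T := by exact_mod_cast hT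
  have hv := vv_pos hd
  have hTv : 0 < (T : ℝ) * vv d := by positivity
  set κ := Real.sqrt (T * vv d) with hκ
  have hκ0 : 0 < κ := Real.sqrt_pos.2 hTv
  have hκ2 : κ ^ 2 = T * vv d := Real.sq_sqrt hTv.le
  have hB0 : 0 ≤ B := (abs_nonneg _).trans (hB 0)
  -- the identity
  have key : (T * vv d) * (∑ v ∈ W d T, h (sg v + 1) - ∑ v ∈ W d T, h (sg v)) =
      ∑ v ∈ W d T, ((sg v : ℝ) - (1 - 1 / (d : ℝ)) * T) *
        ((1 - 1 / (d : ℝ)) * h (sg v + 1) + (1 / d) * h (sg v)) := by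
    have h1 := stein (by omega : 1 ≤ d) T h
    have h2 : ∑ v ∈ W d T, ((T : ℝ) - sg v) * ((d : ℝ) - 1) * h (sg v + 1) -
        ∑ v ∈ W d T, (sg v : ℝ) * h (sg v) = 0 := by rw [h1]; ring
    rw [← Finset.sum_sub_distrib] at h2 ⊢
    have h3 : ∑ v ∈ W d T, ((T * vv d) * (h (sg v + 1) - h (sg v)) -
        ((sg v : ℝ) - (1 - 1 / (d : ℝ)) * T) *
        ((1 - 1 / (d : ℝ)) * h (sg v + 1) + (1 / d) * h (sg v))) =
        (1 / d) * ∑ v ∈ W d T, (((T : ℝ) - sg v) * ((d : ℝ) - 1) * h (sg v + 1) -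
          (sg v : ℝ) * h (sg v)) := by
      rw [Finset.mul_sum]
      refine Finset.sum_congr rfl fun v _ => ?_
      unfold vv
      field_simp
      ring
    rw [h2, mul_zero, Finset.sum_sub_distrib, ← Finset.mul_sum] at h3
    linarith
  -- the estimate
  have hmain : |∑ v ∈ W d T, ((sg v : ℝ) - (1 - 1 / (d : ℝ)) * T) *
        ((1 - 1 / (d : ℝ)) * h (sg v + 1) + (1 / d) * h (sg v))| ≤ B * (κ * (d : ℝ) ^ T) := by
    refine (Finset.abs_sum_le_sum_abs _ _).trans ?_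
    have hterm : ∀ v ∈ W d T, |((sg v : ℝ) - (1 - 1 / (d : ℝ)) * T) *
        ((1 - 1 / (d : ℝ)) * h (sg v + 1) + (1 / d) * h (sg v))| ≤
        B * ((κ + ((sg v : ℝ) - (1 - 1 / (d : ℝ)) * T) ^ 2 / κ) / 2) := by
      intro v _
      rw [abs_mul, mul_comm B]
      have hp : 0 ≤ 1 - 1 / (d : ℝ) := by
        have : 1 / (d : ℝ) ≤ 1 / 2 := one_div_le_one_div_of_le (by norm_num) hd'
        linarith
      have hq : 0 ≤ 1 / (d : ℝ) := by positivity
      have e1 : |(1 - 1 / (d : ℝ)) * h (sg v + 1) + (1 / d) * h (sg v)| ≤ B := by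
        refine (abs_add_le _ _).trans ?_
        rw [abs_mul, abs_mul, abs_of_nonneg hp, abs_of_nonneg hq]
        have a1 := mul_le_mul_of_nonneg_left (hB (sg v + 1)) hp
        have a2 := mul_le_mul_of_nonneg_left (hB (sg v)) hq
        calc _ ≤ (1 - 1 / (d : ℝ)) * B + 1 / d * B := add_le_add a1 a2
          _ = B := by ring
      have e2 : |(sg v : ℝ) - (1 - 1 / (d : ℝ)) * T| ≤
          (κ + ((sg v : ℝ) - (1 - 1 / (d : ℝ)) * T) ^ 2 / κ) / 2 := by
        set x := (sg v : ℝ) - (1 - 1 / (d : ℝ)) * T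
        rw [le_div_iff₀ (by norm_num : (0 : ℝ) < 2), ← sub_nonneg]
        have : κ + x ^ 2 / κ - |x| * 2 = (κ - |x|) ^ 2 / κ := by
          rw [← sq_abs x]
          field_simp
          ring
        rw [this]
        positivity
      exact mul_le_mul e2 e1 (abs_nonneg _) (by positivity)
    refine (Finset.sum_le_sum hterm).trans (le_of_eq ?_)
    rw [← Finset.mul_sum, ← Finset.sum_div, Finset.sum_add_distrib, ← Finset.sum_div,
      sum_sq_centered (by omega), Finset.sum_const, card_W, nsmul_eq_mul]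
    push_cast
    have e3 : (T : ℝ) * ((1 - 1 / (d : ℝ)) * (1 / d)) * (d : ℝ) ^ T / κ = κ * (d : ℝ) ^ T := by
      have : (T : ℝ) * ((1 - 1 / (d : ℝ)) * (1 / d)) = κ ^ 2 := by rw [hκ2]; rfl
      rw [this]
      field_simp
    rw [e3]
    ring
  rw [← key, abs_mul, abs_of_pos hTv, ← hκ2] at hmain
  rw [le_div_iff₀ hκ0]
  have h5 : κ * (|∑ v ∈ W d T, h (sg v + 1) - ∑ v ∈ W d T, h (sg v)| * κ) ≤
      κ * (B * (d : ℝ) ^ T) := by
    calc _ = κ ^ 2 * |∑ v ∈ W d T, h (sg v + 1) - ∑ v ∈ W d T, h (sg v)| := by ring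
      _ ≤ B * (κ * (d : ℝ) ^ T) := hmain
      _ = _ := by ring
  exact le_of_mul_le_mul_left h5 hκ0

/-- Shift by a natural number, for functions on `ℤ`. -/
theorem shift_nat {d : ℕ} (hd : 2 ≤ d) {T : ℕ} (hT : 1 ≤ T) {h : ℤ → ℝ} {B : ℝ}
    (hB : ∀ s, |h s| ≤ B) (c : ℤ) (k : ℕ) :
    |∑ v ∈ W d T, h (sg v + (c + k)) - ∑ v ∈ W d T, h (sg v + c)| ≤
      k * (B * (d : ℝ) ^ T / Real.sqrt (T * vv d)) := by
  induction k with
  | zero => simp
  | succ k ih =>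
    have h1 := shift_one hd hT (h := fun s => h ((s : ℤ) + (c + k))) (fun s => hB _)
    have e : ∀ v : List ℕ, (((sg v + 1 : ℕ) : ℤ) + (c + k)) = (sg v : ℤ) + (c + ((k + 1 : ℕ) : ℤ)) := by
      intro v; push_cast; ring
    simp only [e] at h1
    calc |∑ v ∈ W d T, h (sg v + (c + ((k + 1 : ℕ) : ℤ))) - ∑ v ∈ W d T, h (sg v + c)|
        = |(∑ v ∈ W d T, h (sg v + (c + ((k + 1 : ℕ) : ℤ))) - ∑ v ∈ W d T, h (sg v + (c + k))) +
          (∑ v ∈ W d T, h (sg v + (c + k)) - ∑ v ∈ W d T, h (sg v + c))| := by congr 1; ring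
      _ ≤ _ := abs_add_le _ _
      _ ≤ B * (d : ℝ) ^ T / Real.sqrt (T * vv d) +
          k * (B * (d : ℝ) ^ T / Real.sqrt (T * vv d)) := add_le_add h1 ih
      _ = _ := by push_cast; ring

/-- Shifts by integers. -/
theorem shift_int {d : ℕ} (hd : 2 ≤ d) {T : ℕ} (hT : 1 ≤ T) {h : ℤ → ℝ} {B : ℝ}
    (hB : ∀ s, |h s| ≤ B) (c c' : ℤ) :
    |∑ v ∈ W d T, h (sg v + c') - ∑ v ∈ W d T, h (sg v + c)| ≤
      |(c' : ℝ) - c| * (B * (d : ℝ) ^ T / Real.sqrt (T * vv d)) := by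
  rcases le_total c c' with hc | hc
  · obtain ⟨k, hk⟩ := Int.eq_ofNat_of_zero_le (sub_nonneg.2 hc)
    have h1 := shift_nat hd hT hB c k
    have e : c' = c + k := by omega
    rw [e]
    have e2 : |((c + (k : ℤ) : ℤ) : ℝ) - (c : ℝ)| = (k : ℝ) := by
      push_cast
      rw [add_sub_cancel_left, Nat.abs_cast]
    rw [e2]
    exact h1
  · obtain ⟨k, hk⟩ := Int.eq_ofNat_of_zero_le (sub_nonneg.2 hc)
    have h1 := shift_nat hd hT hB c' k
    have e : c = c' + k := by omega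
    rw [e, abs_sub_comm]
    have e2 : |(c' : ℝ) - ((c' + (k : ℤ) : ℤ) : ℝ)| = (k : ℝ) := by
      push_cast
      rw [sub_add_cancel_left, abs_neg, Nat.abs_cast]
    rw [e2]
    exact h1

end Pool.Agent.Helper8.ND
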