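import Pool.Agent.Helper8.ND.Density
import Pool.Agent.Helper52.Moeller.HOrbit
import Pool.Agent.Helper52.Tao.U3
import Pool.Agent.Helper52.Tao.FD
import Pool.Agent.Helper52.Tao.MX1
import Pool.Agent.Helper52.Tao.MX2

/-!
# Natural density of the invariant sets of `H`
-/

set_option autoImplicit false

namespace Pool.Agent.Helper8.ND

open Pool.Agent.Helper68.Moeller Pool.Agent.Helper52.Tao

/-- The set `D` of the positive integers not divisible by `d`. -/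
def DD (d : ℕ) : Set ℤ := {n | 0 < n ∧ ¬ (d : ℤ) ∣ n}

/-- `A ⊆ D`, and for `n ∈ D`, `n > x₀`, such that `H(n)` is defined, `n ∈ A` if and only if
`H(n) ∈ A`. -/
def InvBeyond (d m : ℕ) (r : ℤ → ℤ) (A : Set ℤ) (x₀ : ℝ) : Prop :=
  A ⊆ DD d ∧ ∀ n ∈ DD d, x₀ < n → r (n % (d : ℤ)) < (m : ℤ) * n → (n ∈ A ↔ H d m r n ∈ A)

/-- The numbers `d ^ k * a`, `a ∈ A`. -/
def lift (d : ℕ) (A : Set ℤ) : Set ℤ := {n | ∃ k : ℕ, ∃ a ∈ A, n = (d : ℤ) ^ k * a}

theorem pow_mul_inj {d : ℕ} (hd : 2 ≤ d) {a a' : ℤ} (ha : ¬ (d : ℤ) ∣ a) (ha' : ¬ (d : ℤ) ∣ a') :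
    ∀ {k k' : ℕ}, (d : ℤ) ^ k * a = (d : ℤ) ^ k' * a' → a = a' := by
  have hd0 : (d : ℤ) ≠ 0 := by omega
  intro k
  induction k with
  | zero =>
    intro k' h
    rcases k' with _ | k'
    · simpa using h
    · exfalso
      apply ha
      rw [pow_zero, one_mul] at h
      rw [h, pow_succ', mul_assoc]
      exact dvd_mul_right _ _
  | succ k ih =>
    intro k' h
    rcases k' with _ | k'
    · exfalso
      apply ha'
      rw [pow_zero, one_mul] at h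
      rw [← h, pow_succ', mul_assoc]
      exact dvd_mul_right _ _
    · apply ih (k' := k')
      rw [pow_succ', pow_succ', mul_assoc, mul_assoc] at h
      exact mul_left_cancel₀ hd0 h

theorem mem_lift {d : ℕ} (hd : 2 ≤ d) {A : Set ℤ} (hA : A ⊆ DD d) {a : ℤ} (ha : ¬ (d : ℤ) ∣ a)
    (k : ℕ) : (d : ℤ) ^ k * a ∈ lift d A ↔ a ∈ A := by
  constructor
  · rintro ⟨k', a', ha', h⟩
    rw [pow_mul_inj hd ha (hA ha').2 h]
    exact ha'
  · intro h
    exact ⟨k, a, h, rfl⟩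

theorem exists_decomp {d : ℕ} (hd : 2 ≤ d) {n : ℤ} (hn : 0 < n) :
    ∃ k : ℕ, ∃ a : ℤ, n = (d : ℤ) ^ k * a ∧ ¬ (d : ℤ) ∣ a ∧ 0 < a := by
  have hfin : FiniteMultiplicity (d : ℤ) n := by
    rw [Int.finiteMultiplicity_iff]
    refine ⟨?_, hn.ne'⟩
    rw [Int.natAbs_natCast]
    omega
  obtain ⟨c, hc1, hc2⟩ := hfin.exists_eq_pow_mul_and_not_dvd
  refine ⟨_, c, hc1, hc2, ?_⟩
  have h1 : (0 : ℤ) < (d : ℤ) ^ multiplicity (d : ℤ) n := by
    have : (0 : ℤ) < d := by omega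
    positivity
  rw [hc1] at hn
  exact (mul_pos_iff_of_pos_left h1).1 hn

/-- The lift of an invariant set is invariant under `T`. -/
theorem tinv_lift {d m : ℕ} (hd : 2 ≤ d) (hm : 1 ≤ m) {r : ℤ → ℤ} (hr : Admissible d m r)
    {B : ℕ} (hB : ∀ j : ℤ, 0 < j → j < (d : ℤ) → |r j| ≤ B) {A : Set ℤ} {x₀ z : ℝ}
    (hA : InvBeyond d m r A x₀) (hz1 : x₀ ≤ z) (hz2 : (B : ℝ) ≤ z) : TInv d m r (lift d A) z := by
  intro n hn
  have hB0 : (0 : ℤ) ≤ B := by positivity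
  have hnB : (B : ℤ) < n := by
    have : (B : ℝ) < n := lt_of_le_of_lt hz2 hn
    exact_mod_cast this
  have hn0 : 0 < n := by omega
  obtain ⟨k, a, hk, ha, ha0⟩ := exists_decomp hd hn0
  have hd0 : (d : ℤ) ≠ 0 := by omega
  rcases k with _ | k
  · rw [pow_zero, one_mul] at hk
    subst hk
    obtain ⟨e1, e2⟩ := emod_pos hd ha
    have h3 := (le_abs_self _).trans (hB _ e1 e2)
    have h4 : n ≤ (m : ℤ) * n := by
      have : (1 : ℤ) ≤ m := by exact_mod_cast hm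
      nlinarith
    have hdef : r (n % (d : ℤ)) < (m : ℤ) * n := by omega
    obtain ⟨f1, c, f2⟩ := H_spec hr hd ha hdef
    have h5 := hA.2 n ⟨hn0, ha⟩ (lt_of_le_of_lt hz1 hn) hdef
    have h6 := mem_lift hd hA.1 ha 0
    rw [pow_zero, one_mul] at h6
    rw [h6, f2, mem_lift hd hA.1 f1]
    exact h5
  · have hT : T d m r n = (d : ℤ) ^ k * a := by
      apply mul_left_cancel₀ hd0
      rw [d_mul_T_of_dvd, hk, pow_succ', mul_assoc]
      rw [hk, pow_succ', mul_assoc]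
      exact dvd_mul_right _ _
    rw [hT, hk, mem_lift hd hA.1 ha, mem_lift hd hA.1 ha]

/-- The count of the lift. -/
theorem cN_lift {d : ℕ} (hd : 2 ≤ d) {A : Set ℤ} (hA : A ⊆ DD d) (x : ℝ) :
    cN (lift d A) x = cN A x + cN (lift d A) (x / d) := by
  have hd0 : (0 : ℤ) < d := by omega
  have hdR : (0 : ℝ) < d := by exact_mod_cast hd0
  have h1 : {n : ℤ | n ∈ lift d A ∧ 0 < n ∧ (n : ℝ) ≤ x} =
      {n : ℤ | n ∈ A ∧ 0 < n ∧ (n : ℝ) ≤ x} ∪
        (fun n : ℤ => (d : ℤ) * n) '' {n : ℤ | n ∈ lift d A ∧ 0 < n ∧ (n : ℝ) ≤ x / d} := by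
    ext n
    simp only [Set.mem_union, Set.mem_ofPred_eq, Set.mem_image]
    constructor
    · rintro ⟨⟨k, a, ha, hk⟩, h2, h3⟩
      rcases k with _ | k
      · left
        rw [pow_zero, one_mul] at hk
        rw [hk] at h2 h3 ⊢
        exact ⟨ha, h2, h3⟩
      · right
        have e : n = (d : ℤ) * ((d : ℤ) ^ k * a) := by rw [hk]; ring
        refine ⟨(d : ℤ) ^ k * a, ⟨⟨k, a, ha, rfl⟩, ?_, ?_⟩, e.symm⟩
        · rw [e] at h2
          exact (mul_pos_iff_of_pos_left hd0).1 h2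
        · rw [le_div_iff₀ hdR]
          have : (n : ℝ) = (d : ℝ) * (((d : ℤ) ^ k * a : ℤ) : ℝ) := by exact_mod_cast e
          linarith
    · rintro (⟨h1, h2, h3⟩ | ⟨y, ⟨⟨k, a, ha, hk⟩, h2, h3⟩, h4⟩)
      · exact ⟨⟨0, n, h1, by simp⟩, h2, h3⟩
      · refine ⟨⟨k + 1, a, ha, ?_⟩, ?_, ?_⟩
        · rw [← h4, hk]; ring
        · rw [← h4]; positivity
        · rw [← h4]
          rw [le_div_iff₀ hdR] at h3
          push_cast
          linarith
  have h2 : Disjoint {n : ℤ | n ∈ A ∧ 0 < n ∧ (n : ℝ) ≤ x}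
      ((fun n : ℤ => (d : ℤ) * n) '' {n : ℤ | n ∈ lift d A ∧ 0 < n ∧ (n : ℝ) ≤ x / d}) := by
    refine Set.disjoint_left.2 ?_
    rintro n hn ⟨y, _, hy⟩
    exact (hA hn.1).2 ⟨y, hy.symm⟩
  unfold cN
  rw [h1, Set.ncard_union_eq h2 (finite_cN A x) ((finite_cN _ _).image _),
    Set.ncard_image_of_injective _ (fun a b h => mul_left_cancel₀ hd0.ne' h)]
  push_cast
  rfl

/-- The natural density of the invariant sets of `H`. -/
theorem density_H {d m : ℕ} (hd : 2 ≤ d) (hdm : d < m) (hco : Nat.Coprime m d)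
    (hm : (m : ℝ) ≤ (d : ℝ) ^ ((d : ℝ) / ((d : ℝ) - 1))) {r : ℤ → ℤ} (hr : Admissible d m r) :
    ∃ K : ℝ, 1 ≤ K ∧ 4 ≤ Real.log K ∧ ∀ x₀ : ℝ, 1 ≤ x₀ → ∀ A : Set ℤ, InvBeyond d m r A x₀ →
      ∃ δ : ℝ, 0 ≤ δ ∧ ∀ x : ℝ, K * x₀ ^ 16 ≤ x →
        |cN A x - δ * x| ≤ K * x / Real.log (Real.log x) := by
  have hmix : Mixing d m r := mixing hd hdm hco (mixing_step hd hdm hco hm hr
    (fourier_decay hd hdm hco hm hr (one_block hd hdm hco hm)))
  have hd2 : (2 : ℝ) ≤ d := by exact_mod_cast hd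
  have hd0 : (0 : ℝ) < d := by linarith
  have hγ : (1 - 1 / (d : ℝ)) * Real.log m < Real.log d := by
    have h1 := log_m_lt hd hdm hco hm
    have e : (1 - 1 / (d : ℝ)) * Real.log m = (((d : ℝ) - 1) * Real.log m) / d := by
      field_simp
    rw [e, div_lt_iff₀ hd0]
    linarith
  obtain ⟨K₁, hK₁, hK₁log, hdens⟩ := density_T hd hdm hco hγ hr hmix
  obtain ⟨B, hB⟩ := FL_exists_B d r
  have hB0 : (0 : ℝ) ≤ B := by positivity
  have hK₁0 : 0 < K₁ := by linarith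
  have hB16 : (1 : ℝ) ≤ ((B : ℝ) + 1) ^ 16 := one_le_pow₀ (by linarith)
  set K := d * K₁ * ((B : ℝ) + 1) ^ 16 + (d : ℝ) ^ 2 + 3 * K₁ with hK
  have hKK : K₁ ≤ K := by
    have : 0 ≤ d * K₁ * ((B : ℝ) + 1) ^ 16 := by positivity
    have : 0 ≤ (d : ℝ) ^ 2 := by positivity
    linarith
  refine ⟨K, by linarith, hK₁log.trans (Real.log_le_log hK₁0 hKK), ?_⟩
  intro x₀ hx₀ A hA
  have hz1 : x₀ ≤ ((B : ℝ) + 1) * x₀ := le_mul_of_one_le_left (by linarith) (by linarith)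
  have hz2 : (B : ℝ) ≤ ((B : ℝ) + 1) * x₀ := by
    have : ((B : ℝ) + 1) * 1 ≤ ((B : ℝ) + 1) * x₀ := mul_le_mul_of_nonneg_left hx₀ (by linarith)
    linarith
  obtain ⟨δ, hδ0, _, hδ⟩ := hdens (((B : ℝ) + 1) * x₀) (hx₀.trans hz1) (lift d A)
    (tinv_lift hd (by omega) hr hB hA hz1 hz2)
  have h1d : 1 / (d : ℝ) ≤ 1 / 2 := one_div_le_one_div_of_le (by norm_num) hd2
  refine ⟨δ * (1 - 1 / d), mul_nonneg hδ0 (by linarith), ?_⟩
  intro x hx
  have hx16 : 1 ≤ x₀ ^ 16 := one_le_pow₀ hx₀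
  have hKx : K ≤ x := (le_mul_of_one_le_right (by linarith) hx16).trans hx
  have hx0 : 0 < x := by linarith
  have hxd2 : (d : ℝ) ^ 2 ≤ x := by
    refine le_trans ?_ hKx
    have : 0 ≤ d * K₁ * ((B : ℝ) + 1) ^ 16 := by positivity
    linarith
  -- the size of `x / d`
  have hxd : K₁ * (((B : ℝ) + 1) * x₀) ^ 16 ≤ x / d := by
    rw [le_div_iff₀ hd0]
    refine le_trans ?_ hx
    have h2 : d * K₁ * ((B : ℝ) + 1) ^ 16 ≤ K := by
      have : 0 ≤ (d : ℝ) ^ 2 := by positivity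
      linarith
    calc K₁ * (((B : ℝ) + 1) * x₀) ^ 16 * d = d * K₁ * ((B : ℝ) + 1) ^ 16 * x₀ ^ 16 := by ring
      _ ≤ K * x₀ ^ 16 := mul_le_mul_of_nonneg_right h2 (by positivity)
  have hxdx : x / d ≤ x := div_le_self hx0.le (by linarith)
  have e1 := hδ x (hxd.trans hxdx)
  have e2 := hδ (x / d) hxd
  -- the logarithms
  set ℓ := Real.log x with hℓ
  have hℓ4 : 4 ≤ ℓ := hK₁log.trans (Real.log_le_log hK₁0 (hKK.trans hKx))
  have hll : 0 < Real.log ℓ := Real.log_pos (by linarith)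
  have hxd0 : 0 < x / d := by positivity
  have h3 : ℓ / 2 ≤ Real.log (x / d) := by
    have h4 : Real.log d ≤ ℓ / 2 := by
      have h5 := Real.log_le_log (by positivity) hxd2
      rw [Real.log_pow] at h5
      push_cast at h5
      linarith
    rw [Real.log_div hx0.ne' hd0.ne']
    linarith
  have h4 : Real.log ℓ / 2 ≤ Real.log (Real.log (x / d)) := by
    have h5 : Real.log (ℓ / 2) ≤ Real.log (Real.log (x / d)) := Real.log_le_log (by linarith) h3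
    rw [Real.log_div (by linarith) (by norm_num)] at h5
    have h6 : 2 * Real.log 2 ≤ Real.log ℓ := by
      have h7 : Real.log ((2 : ℝ) ^ 2) ≤ Real.log ℓ := Real.log_le_log (by norm_num) (by linarith)
      rw [Real.log_pow] at h7
      push_cast at h7
      exact h7
    linarith
  have e3 : K₁ * (x / d) / Real.log (Real.log (x / d)) ≤ 2 * (K₁ * x / Real.log ℓ) := by
    have h5 : 0 < Real.log ℓ / 2 := by positivity
    calc K₁ * (x / d) / Real.log (Real.log (x / d)) ≤ K₁ * x / (Real.log ℓ / 2) := by gcongr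
      _ = 2 * (K₁ * x / Real.log ℓ) := by field_simp
  have e4 : K * x / Real.log ℓ = (d * K₁ * ((B : ℝ) + 1) ^ 16 + (d : ℝ) ^ 2) * x / Real.log ℓ +
      3 * (K₁ * x / Real.log ℓ) := by rw [hK]; ring
  have e5 : 0 ≤ (d * K₁ * ((B : ℝ) + 1) ^ 16 + (d : ℝ) ^ 2) * x / Real.log ℓ := by positivity
  have e6 := cN_lift hd hA.1 x
  have e7 : δ * (1 - 1 / d) * x = δ * x - δ * (x / d) := by field_simp
  rw [e4, e7, abs_le]
  have e8 := abs_le.1 e1
  have e9 := abs_le.1 (e2.trans e3)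
  constructor <;> linarith

end Pool.Agent.Helper8.ND
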