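import Mathlib

/-!
# Inhomogeneous approximation by `i log m - j log d`
-/

set_option autoImplicit false

namespace Pool.Agent.Helper8.ND

/-- Powers of coprime numbers are different. -/
theorem pow_ne_of_coprime {d m : ℕ} (hd : 2 ≤ d) (hco : Nat.Coprime m d) {q p : ℕ} (hq : 1 ≤ q) :
    d ^ q ≠ m ^ p := by
  intro h
  have h1 : Nat.Coprime (m ^ p) (d ^ q) := (hco.pow_left p).pow_right q
  rw [← h, Nat.coprime_self] at h1
  have h2 : 1 < d ^ q := Nat.one_lt_pow (by omega) (by omega)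
  omega

/-- A lower bound for the linear form. -/
theorem linear_form {d m : ℕ} (hd : 2 ≤ d) (hdm : d < m) (hco : Nat.Coprime m d) {q p : ℕ}
    (hq : 1 ≤ q) (hp : p ≤ q + 1) :
    ((m : ℝ) ^ (q + 1))⁻¹ ≤ |(q : ℝ) * Real.log d - p * Real.log m| := by
  have hd0 : (0 : ℝ) < d := by positivity
  have hm0 : (0 : ℝ) < m := by
    have : 0 < m := by omega
    exact_mod_cast this
  have hm1 : (1 : ℝ) ≤ m := by
    have : 1 ≤ m := by omega
    exact_mod_cast this
  have hne := pow_ne_of_coprime hd hco (p := p) hq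
  have e1 : (q : ℝ) * Real.log d = Real.log ((d : ℝ) ^ q) := by rw [Real.log_pow]
  have e2 : (p : ℝ) * Real.log m = Real.log ((m : ℝ) ^ p) := by rw [Real.log_pow]
  rw [e1, e2]
  set X : ℝ := (d : ℝ) ^ q with hX
  set Y : ℝ := (m : ℝ) ^ p with hY
  have hX0 : 0 < X := by positivity
  have hY0 : 0 < Y := by positivity
  have hXle : X ≤ (m : ℝ) ^ (q + 1) := by
    calc X ≤ (m : ℝ) ^ q := pow_le_pow_left₀ hd0.le (by exact_mod_cast hdm.le) q
      _ ≤ (m : ℝ) ^ (q + 1) := pow_le_pow_right₀ hm1 (by omega)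
  have hYle : Y ≤ (m : ℝ) ^ (q + 1) := pow_le_pow_right₀ hm1 hp
  -- the ratio
  have aux : ∀ {U V : ℝ}, 0 < U → 0 < V → U + 1 ≤ V → V ≤ (m : ℝ) ^ (q + 1) →
      ((m : ℝ) ^ (q + 1))⁻¹ ≤ Real.log V - Real.log U := by
    intro U V hU hV hUV hVm
    rw [← Real.log_div hV.ne' hU.ne']
    have h1 : 1 - (V / U)⁻¹ ≤ Real.log (V / U) := Real.one_sub_inv_le_log_of_pos (by positivity)
    refine le_trans ?_ h1
    rw [inv_div]
    have h2 : U / V ≤ (V - 1) / V := div_le_div_of_nonneg_right (by linarith) hV.le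
    have h3 : (V - 1) / V = 1 - V⁻¹ := by field_simp
    have h4 : ((m : ℝ) ^ (q + 1))⁻¹ ≤ V⁻¹ := inv_anti₀ hV hVm
    linarith
  rcases lt_or_gt_of_ne hne with h | h
  · have h1 : X + 1 ≤ Y := by
      rw [hX, hY]
      exact_mod_cast h
    have h2 := aux hX0 hY0 h1 hYle
    rw [abs_sub_comm]
    exact h2.trans (le_abs_self _)
  · have h1 : Y + 1 ≤ X := by
      rw [hX, hY]
      exact_mod_cast h
    have h2 := aux hY0 hX0 h1 hXle
    exact h2.trans (le_abs_self _)

/-- Every real number is within `log m / N` of a number `i log m - j log d` with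
`0 ≤ j ≤ exp (κ N)`. -/
theorem approx {d m : ℕ} (hd : 2 ≤ d) (hdm : d < m) (hco : Nat.Coprime m d) :
    ∃ κ : ℝ, 0 < κ ∧ ∀ N : ℕ, 1 ≤ N → ∀ x : ℝ, ∃ j : ℕ, ∃ i : ℤ,
      (j : ℝ) ≤ Real.exp (κ * N) ∧
      |(i : ℝ) * Real.log m - j * Real.log d - x| ≤ Real.log m / N := by
  have hm3 : (3 : ℝ) ≤ m := by
    have : 3 ≤ m := by omega
    exact_mod_cast this
  have hm0 : (0 : ℝ) < m := by linarith
  have hd2 : (2 : ℝ) ≤ d := by exact_mod_cast hd
  have hμ : 0 < Real.log m := Real.log_pos (by linarith)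
  have hlam : 0 < Real.log d := Real.log_pos (by linarith)
  set μ := Real.log m with hμdef
  set lam := Real.log d with hlamdef
  have hlm : lam < μ := Real.log_lt_log (by linarith) (by exact_mod_cast hdm)
  have hμ1 : 1 ≤ μ := by
    rw [hμdef, Real.le_log_iff_exp_le hm0]
    have := Real.exp_one_lt_d9
    linarith
  refine ⟨1 + 3 * μ, by positivity, ?_⟩
  intro N hN x
  have hN0 : 0 < N := by omega
  have hNR : (0 : ℝ) < N := by exact_mod_cast hN0
  have hN1 : (1 : ℝ) ≤ N := by exact_mod_cast hN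
  set α := lam / μ with hα
  have hα0 : 0 < α := by positivity
  have hα1 : α < 1 := by rw [hα, div_lt_one hμ]; exact hlm
  obtain ⟨q, hq0, hqN, hq⟩ := Real.exists_nat_abs_mul_sub_round_le α hN0
  set p := round ((q : ℝ) * α) with hp
  set θ := (q : ℝ) * α - p with hθ
  have hqR : (1 : ℝ) ≤ q := by exact_mod_cast hq0
  have hqNR : (q : ℝ) ≤ N := by exact_mod_cast hqN
  have hθN : |θ| ≤ 1 / ((N : ℝ) + 1) := hq
  have hθN' : |θ| ≤ 1 / (N : ℝ) := hθN.trans (by
    apply one_div_le_one_div_of_le hNR; linarith)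
  have hθ1 : |θ| ≤ 1 / 2 := by
    refine hθN.trans ?_
    apply one_div_le_one_div_of_le (by norm_num); linarith
  -- `p` is a natural number
  have hp0 : 0 ≤ p := by
    have h1 : (q : ℝ) * α - θ = p := by rw [hθ]; ring
    have h2 := (abs_le.1 hθ1).2
    have h3 : 0 < (q : ℝ) * α := by positivity
    have h4 : (-1 : ℝ) < p := by linarith
    have h5 : (-1 : ℤ) < p := by exact_mod_cast h4
    omega
  obtain ⟨p', hp'⟩ := Int.eq_ofNat_of_zero_le hp0
  have hpq : p' ≤ q + 1 := by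
    have h1 : (q : ℝ) * α - θ = p := by rw [hθ]; ring
    have h2 := (abs_le.1 hθ1).1
    have h3 : (q : ℝ) * α ≤ q := by
      have := mul_le_mul_of_nonneg_left hα1.le (by positivity : (0 : ℝ) ≤ q)
      linarith
    have h4 : (p : ℝ) ≤ q + 1 := by linarith
    rw [hp'] at h4
    have : (p' : ℝ) ≤ ((q + 1 : ℕ) : ℝ) := by push_cast; exact_mod_cast h4
    exact_mod_cast this
  -- the lower bound for `θ`
  have hμθ : μ * θ = q * lam - p' * μ := by
    rw [hθ, hα, hp']
    push_cast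
    field_simp
  have hlow : ((m : ℝ) ^ (N + 1))⁻¹ ≤ μ * |θ| := by
    have h1 := linear_form hd hdm hco (q := q) (p := p') hq0 hpq
    rw [← hμdef, ← hlamdef, ← hμθ, abs_mul, abs_of_pos hμ] at h1
    refine le_trans ?_ h1
    apply inv_anti₀ (by positivity)
    exact pow_le_pow_right₀ (by linarith) (by omega)
  have hθpos : 0 < |θ| := by
    have h2 : 0 < ((m : ℝ) ^ (N + 1))⁻¹ := by positivity
    have h3 : 0 < μ * |θ| := lt_of_lt_of_le h2 hlow
    exact (mul_pos_iff_of_pos_left hμ).1 h3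
  -- the size of `j`
  have hsize : ∀ k : ℕ, (k : ℝ) ≤ 1 / |θ| → ((k * q : ℕ) : ℝ) ≤ Real.exp ((1 + 3 * μ) * N) := by
    intro k hk
    have h1 : 1 / |θ| ≤ μ * (m : ℝ) ^ (N + 1) := by
      rw [div_le_iff₀ hθpos]
      have h2 : (0 : ℝ) < (m : ℝ) ^ (N + 1) := by positivity
      calc (1 : ℝ) = ((m : ℝ) ^ (N + 1))⁻¹ * (m : ℝ) ^ (N + 1) := by field_simp
        _ ≤ μ * |θ| * (m : ℝ) ^ (N + 1) := mul_le_mul_of_nonneg_right hlow h2.le
        _ = _ := by ring
    have h3 : (m : ℝ) ^ (N + 1) ≤ Real.exp (2 * μ * N) := by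
      have e : Real.exp μ = m := Real.exp_log hm0
      rw [← e, ← Real.exp_nat_mul, Real.exp_le_exp]
      push_cast
      nlinarith
    have h4 : μ ≤ Real.exp (μ * N) := by
      have h5 := Real.add_one_le_exp (μ * N)
      nlinarith
    have h5 : (N : ℝ) ≤ Real.exp N := by
      have := Real.add_one_le_exp (N : ℝ)
      linarith
    push_cast
    calc (k : ℝ) * q ≤ (μ * (m : ℝ) ^ (N + 1)) * N :=
          mul_le_mul (hk.trans h1) hqNR (by positivity) (by positivity)
      _ ≤ (Real.exp (μ * N) * Real.exp (2 * μ * N)) * Real.exp N := by gcongr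
      _ = Real.exp ((1 + 3 * μ) * N) := by
          rw [← Real.exp_add, ← Real.exp_add]
          congr 1
          ring
  -- the choice of `k` and `i`
  set y := x / μ with hy
  have hfin : ∀ (k : ℕ) (i' : ℤ), (k : ℝ) ≤ 1 / |θ| → |(i' : ℝ) - k * θ - y| ≤ |θ| →
      ∃ j : ℕ, ∃ i : ℤ, (j : ℝ) ≤ Real.exp ((1 + 3 * μ) * N) ∧
        |(i : ℝ) * μ - j * lam - x| ≤ μ / N := by
    intro k i' hk hi
    refine ⟨k * q, i' + k * p', hsize k hk, ?_⟩
    have e : ((i' + (k : ℤ) * (p' : ℤ) : ℤ) : ℝ) * μ - ((k * q : ℕ) : ℝ) * lam - x =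
        μ * ((i' : ℝ) - k * θ - y) := by
      have h1 : x = μ * y := by rw [hy]; field_simp
      rw [h1, mul_sub, mul_sub]
      have h2 : μ * ((k : ℝ) * θ) = k * (μ * θ) := by ring
      rw [h2, hμθ]
      push_cast
      ring
    rw [e, abs_mul, abs_of_pos hμ]
    calc μ * |(i' : ℝ) - k * θ - y| ≤ μ * (1 / N) :=
          mul_le_mul_of_nonneg_left (hi.trans hθN') hμ.le
      _ = μ / N := by ring
  rcases lt_or_gt_of_ne (abs_pos.1 hθpos) with hneg | hpos
  · -- `θ < 0`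
    have habs : |θ| = -θ := abs_of_neg hneg
    have hf0 : 0 ≤ Int.fract y := Int.fract_nonneg y
    have hf1 : Int.fract y < 1 := Int.fract_lt_one y
    refine hfin ⌊Int.fract y / |θ|⌋₊ ⌊y⌋ ?_ ?_
    · have h1 := Nat.floor_le (div_nonneg hf0 hθpos.le)
      refine h1.trans ?_
      exact div_le_div_of_nonneg_right hf1.le hθpos.le
    · have h1 := Nat.floor_le (div_nonneg hf0 hθpos.le)
      have h2 := Nat.lt_floor_add_one (Int.fract y / |θ|)
      rw [le_div_iff₀ hθpos] at h1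
      rw [div_lt_iff₀ hθpos] at h2
      set k := ⌊Int.fract y / |θ|⌋₊
      have h3 : (⌊y⌋ : ℝ) - k * θ - y = k * |θ| - Int.fract y := by
        rw [habs]
        have := Int.floor_add_fract y
        linarith
      rw [h3, abs_le]
      constructor <;> linarith
  · -- `θ > 0`
    have habs : |θ| = θ := abs_of_pos hpos
    set f := (⌈y⌉ : ℝ) - y with hf
    have hf0 : 0 ≤ f := by rw [hf]; linarith [Int.le_ceil y]
    have hf1 : f < 1 := by rw [hf]; linarith [Int.ceil_lt_add_one y]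
    refine hfin ⌊f / |θ|⌋₊ ⌈y⌉ ?_ ?_
    · have h1 := Nat.floor_le (div_nonneg hf0 hθpos.le)
      refine h1.trans ?_
      exact div_le_div_of_nonneg_right hf1.le hθpos.le
    · have h1 := Nat.floor_le (div_nonneg hf0 hθpos.le)
      have h2 := Nat.lt_floor_add_one (f / |θ|)
      rw [le_div_iff₀ hθpos] at h1
      rw [div_lt_iff₀ hθpos] at h2
      set k := ⌊f / |θ|⌋₊
      have h3 : (⌈y⌉ : ℝ) - k * θ - y = f - k * |θ| := by
        rw [habs, hf]
        ring
      rw [h3, abs_le]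
      constructor <;> linarith

end Pool.Agent.Helper8.ND
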