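import Pool.Agent.Helper8.ND.MaxP

/-!
# Convergence of the densities
-/

set_option autoImplicit false

namespace Pool.Agent.Helper8.ND

open Pool.Agent.Helper52.Tao Filter Topology

theorem conv {d m : ℕ} (hd : 2 ≤ d) (hdm : d < m) (hco : Nat.Coprime m d)
    (hγ : (1 - 1 / (d : ℝ)) * Real.log m < Real.log d) {c C : ℝ} (hc : 0 < c) (hC : 0 < C) :
    ∃ K S₂ : ℝ, 0 < K ∧ 4 ≤ S₂ ∧ ∀ (u₁ : ℝ) (g : ℝ → ℝ),
      Good d (Real.log m) (Real.log d) c C u₁ g → ∃ δ : ℝ, 0 ≤ δ ∧ δ ≤ 2 ∧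
        ∀ s : ℝ, S₂ ≤ s → 2 * u₁ ≤ s ^ 4 →
        ∀ u : ℝ, s ^ 4 ≤ u → |g u - δ| ≤ K / Real.log s := by
  obtain ⟨K₀, S₀, hK₀, hS₀, hnear⟩ := near hd hdm hco hc hC
  obtain ⟨S₁, hS₁, hmax⟩ := maxp hd hdm hγ hc hC
  have hd2 : (2 : ℝ) ≤ d := by exact_mod_cast hd
  have hlam : 0 < Real.log d := Real.log_pos (by linarith)
  refine ⟨2 * (K₀ + 2), max S₀ S₁, by positivity, hS₀.trans (le_max_left _ _), ?_⟩
  intro u₁ g hg
  -- the oscillation beyond `s ^ 4`
  have hosc : ∀ s : ℝ, max S₀ S₁ ≤ s → 2 * u₁ ≤ s ^ 4 → ∀ u : ℝ, s ^ 4 ≤ u →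
      |g u - g (s ^ 4)| ≤ (K₀ + 2) / Real.log s := by
    intro s hs hu₁ u hu
    have hs0 : S₀ ≤ s := (le_max_left _ _).trans hs
    have hs1 : S₁ ≤ s := (le_max_right _ _).trans hs
    have hs4 : 4 ≤ s := by linarith
    have hls : 0 < Real.log s := Real.log_pos (by linarith)
    have hls4 : Real.log s ≤ s ^ 4 := by
      have h1 := Real.log_le_sub_one_of_pos (by linarith : 0 < s)
      have h2 : s ≤ s ^ 4 := by
        calc s = s ^ 1 := (pow_one s).symm
          _ ≤ s ^ 4 := pow_le_pow_right₀ (by linarith) (by norm_num)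
      linarith
    have h2s : 2 / s ^ 4 ≤ 2 / Real.log s := div_le_div_of_nonneg_left (by norm_num) hls hls4
    have hwin : ∀ x, s ^ 4 - Real.log d * s ≤ x → x < s ^ 4 →
        |g x - g (s ^ 4)| ≤ K₀ / Real.log s := by
      intro x h1 h2
      have h3 := hnear u₁ g hg s hs0 hu₁ (x - s ^ 4) (by
        rw [abs_le]
        constructor
        · linarith
        · have : 0 < Real.log d * s := by positivity
          linarith)
      rwa [add_sub_cancel] at h3
    have hup := hmax u₁ g hg s hs1 hu₁ (g (s ^ 4) + K₀ / Real.log s)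
      (fun x h1 h2 => by have := (abs_le.1 (hwin x h1 h2)).2; linarith) u hu
    have hlo := hmax u₁ _ (hg.two_sub hd) s hs1 hu₁ (2 - g (s ^ 4) + K₀ / Real.log s)
      (fun x h1 h2 => by have := (abs_le.1 (hwin x h1 h2)).1; linarith) u hu
    have e : (K₀ + 2) / Real.log s = K₀ / Real.log s + 2 / Real.log s := add_div _ _ _
    rw [e, abs_le]
    constructor <;> linarith
  -- the limit
  have hlim : Tendsto (fun s : ℝ => (K₀ + 2) / Real.log s) atTop (𝓝 0) :=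
    Real.tendsto_log_atTop.const_div_atTop _
  have hcau : CauchySeq g := by
    rw [Metric.cauchySeq_iff']
    intro ε hε
    have h1 := (hlim.eventually (gt_mem_nhds hε)).and
      ((eventually_ge_atTop (max S₀ S₁)).and (eventually_ge_atTop (max 1 (2 * u₁))))
    obtain ⟨s, h2, h3, h4⟩ := h1.exists
    have h5 : 1 ≤ s := (le_max_left _ _).trans h4
    have h6 : s ≤ s ^ 4 := by
      calc s = s ^ 1 := (pow_one s).symm
        _ ≤ s ^ 4 := pow_le_pow_right₀ h5 (by norm_num)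
    refine ⟨s ^ 4, fun u hu => ?_⟩
    rw [Real.dist_eq]
    exact lt_of_le_of_lt (hosc s h3 (((le_max_right _ _).trans h4).trans h6) u hu) h2
  obtain ⟨δ, hδ⟩ := cauchySeq_tendsto_of_complete hcau
  refine ⟨δ, ge_of_tendsto' hδ hg.nonneg, le_of_tendsto' hδ hg.le_two, fun s hs hu₁ u hu => ?_⟩
  have h1 : |δ - g (s ^ 4)| ≤ (K₀ + 2) / Real.log s := by
    have h2 : Tendsto (fun u => |g u - g (s ^ 4)|) atTop (𝓝 |δ - g (s ^ 4)|) :=
      (hδ.sub_const _).abs
    refine le_of_tendsto h2 ?_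
    filter_upwards [eventually_ge_atTop (s ^ 4)] with u hu
    exact hosc s hs hu₁ u hu
  have h2 := hosc s hs hu₁ u hu
  calc |g u - δ| = |(g u - g (s ^ 4)) - (δ - g (s ^ 4))| := by congr 1; ring
    _ ≤ |g u - g (s ^ 4)| + |δ - g (s ^ 4)| := abs_sub _ _
    _ ≤ (K₀ + 2) / Real.log s + (K₀ + 2) / Real.log s := add_le_add h2 h1
    _ = 2 * (K₀ + 2) / Real.log s := by ring

end Pool.Agent.Helper8.ND
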