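import Pool.Agent.Helper8.ND.Near

/-!
# The maximum principle and the convergence of the densities
-/

set_option autoImplicit false

namespace Pool.Agent.Helper8.ND

open Pool.Agent.Helper52.Tao

variable {d : ℕ} {μ lam c C u₁ : ℝ} {g : ℝ → ℝ}

theorem Good.two_sub (hd : 2 ≤ d) (hg : Good d μ lam c C u₁ g) :
    Good d μ lam c C u₁ (fun u => 2 - g u) where
  nonneg u := by have := hg.le_two u; linarith
  le_two u := by have := hg.nonneg u; linarith
  lip u h h1 h2 h3 := by
    have := hg.lip u h h1 h2 h3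
    rw [abs_sub_comm] at this
    convert this using 2
    ring
  flow u hu t ht htc := by
    have hdt : (0 : ℝ) < (d : ℝ) ^ t := by positivity
    have h1 := hg.flow u hu t ht htc
    have e : (∑ v ∈ W d t, (2 - g (u + sg v * μ - t * lam))) / (d : ℝ) ^ t =
        2 - (∑ v ∈ W d t, g (u + sg v * μ - t * lam)) / (d : ℝ) ^ t := by
      rw [Finset.sum_sub_distrib, Finset.sum_const, card_W, nsmul_eq_mul, sub_div]
      push_cast
      rw [mul_div_cancel_left₀ _ hdt.ne']
    rw [abs_sub_comm] at h1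
    have e2 : (2 - g u) - (2 - (∑ v ∈ W d t, g (u + sg v * μ - t * lam)) / (d : ℝ) ^ t) =
        (∑ v ∈ W d t, g (u + sg v * μ - t * lam)) / (d : ℝ) ^ t - g u := by ring
    rw [e, e2]
    exact h1

/-- The mean of the places. -/
theorem sum_place (hd : 1 ≤ d) (μ lam u : ℝ) (t : ℕ) :
    ∑ v ∈ W d t, (u + sg v * μ - t * lam) =
      (d : ℝ) ^ t * (u - (lam - (1 - 1 / (d : ℝ)) * μ) * t) := by
  have h1 := sum_centered hd t
  have e : ∀ v ∈ W d t, (u + sg v * μ - t * lam) =
      (u - (lam - (1 - 1 / (d : ℝ)) * μ) * t) + ((sg v : ℝ) - (1 - 1 / (d : ℝ)) * t) * μ := by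
    intro v _; ring
  rw [Finset.sum_congr rfl e, Finset.sum_add_distrib, ← Finset.sum_mul, h1, Finset.sum_const,
    card_W, nsmul_eq_mul]
  push_cast
  ring

/-- Jensen's inequality for `1 / y`. -/
theorem sum_inv_place (hd : 1 ≤ d) {μ lam u : ℝ} {t : ℕ}
    (hpos : ∀ v ∈ W d t, 0 < u + sg v * μ - t * lam)
    (hc : 0 < u - (lam - (1 - 1 / (d : ℝ)) * μ) * t) :
    (d : ℝ) ^ t * (u - (lam - (1 - 1 / (d : ℝ)) * μ) * t)⁻¹ ≤
      ∑ v ∈ W d t, (u + sg v * μ - t * lam)⁻¹ := by
  set y := u - (lam - (1 - 1 / (d : ℝ)) * μ) * t with hy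
  have h1 : ∀ v ∈ W d t, (2 * y - (u + sg v * μ - t * lam)) / y ^ 2 ≤
      (u + sg v * μ - t * lam)⁻¹ := by
    intro v hv
    have h2 := hpos v hv
    set x := u + sg v * μ - t * lam
    rw [div_le_iff₀ (by positivity), inv_mul_eq_div, le_div_iff₀ h2]
    nlinarith [sq_nonneg (y - x)]
  refine le_trans (le_of_eq ?_) (Finset.sum_le_sum h1)
  rw [← Finset.sum_div, Finset.sum_sub_distrib, Finset.sum_const, card_W, nsmul_eq_mul,
    sum_place hd, ← hy]
  push_cast
  field_simp
  ring

/-- The maximum principle. -/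
theorem maxp {m : ℕ} (hd : 2 ≤ d) (hdm : d < m) (hγ : (1 - 1 / (d : ℝ)) * Real.log m < Real.log d)
    {c C : ℝ} (hc : 0 < c) (hC : 0 < C) :
    ∃ S₁ : ℝ, 4 ≤ S₁ ∧ ∀ (u₁ : ℝ) (g : ℝ → ℝ),
      Good d (Real.log m) (Real.log d) c C u₁ g → ∀ s : ℝ, S₁ ≤ s → 2 * u₁ ≤ s ^ 4 →
      ∀ M : ℝ, (∀ x, s ^ 4 - Real.log d * s ≤ x → x < s ^ 4 → g x ≤ M) →
      ∀ u, s ^ 4 ≤ u → g u ≤ M + 2 / s ^ 4 := by
  have hm3 : (3 : ℝ) ≤ m := by
    have : 3 ≤ m := by omega
    exact_mod_cast this
  have hd2 : (2 : ℝ) ≤ d := by exact_mod_cast hd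
  have hμ : 0 < Real.log m := Real.log_pos (by linarith)
  have hlam : 0 < Real.log d := Real.log_pos (by linarith)
  set μ := Real.log m with hμdef
  set lam := Real.log d with hlamdef
  set γ := lam - (1 - 1 / (d : ℝ)) * μ with hγdef
  have hγ0 : 0 < γ := by rw [hγdef]; linarith
  have hγlam : γ ≤ lam := by
    have h1 : 1 / (d : ℝ) ≤ 1 / 2 := one_div_le_one_div_of_le (by norm_num) hd2
    have h2 : 0 ≤ (1 - 1 / (d : ℝ)) * μ := mul_nonneg (by linarith) hμ.le
    rw [hγdef]; linarith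
  refine ⟨4 + 1 / c + 2 * lam + 512 * C / γ, ?_, ?_⟩
  · have : 0 < 1 / c + 2 * lam + 512 * C / γ := by positivity
    linarith
  intro u₁ g hg s hs hu₁ M hM
  have q1 : 0 < 1 / c := by positivity
  have q2 : 0 < 512 * C / γ := by positivity
  have hs4 : 4 ≤ s := by linarith
  have hs0 : 0 < s := by linarith
  set L := s ^ 4 with hL
  have hL0 : 0 < L := by positivity
  -- facts for `τ ≥ s`
  have hτfacts : ∀ τ : ℝ, s ≤ τ → τ ≤ τ ^ 3 ∧ τ ≤ c * τ ^ 4 ∧ lam * τ ≤ τ ^ 4 / 2 ∧
      L - lam * s ≤ τ ^ 4 - lam * τ := by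
    intro τ hτ
    have hτ1 : 1 ≤ τ := by linarith
    have hτ0 : 0 < τ := by linarith
    have h3 : τ ≤ τ ^ 3 := by
      calc τ = τ ^ 1 := (pow_one τ).symm
        _ ≤ τ ^ 3 := pow_le_pow_right₀ hτ1 (by norm_num)
    refine ⟨h3, ?_, ?_, ?_⟩
    · have h1 : 1 / c ≤ τ ^ 3 := by linarith
      rw [div_le_iff₀ hc] at h1
      have h2 := mul_le_mul_of_nonneg_left h1 hτ0.le
      have e : τ ^ 4 = τ * τ ^ 3 := by ring
      rw [e]; linarith
    · have h1 : 2 * lam ≤ τ ^ 3 := by linarith
      have h2 := mul_le_mul_of_nonneg_left h1 hτ0.le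
      have e : τ ^ 4 = τ * τ ^ 3 := by ring
      rw [e]; linarith
    · have h1 : lam ≤ τ ^ 3 := by linarith
      have e : τ ^ 4 - s ^ 4 = (τ - s) * (τ ^ 3 + τ ^ 2 * s + τ * s ^ 2 + s ^ 3) := by ring
      have h2 : lam ≤ τ ^ 3 + τ ^ 2 * s + τ * s ^ 2 + s ^ 3 := by
        have : 0 ≤ τ ^ 2 * s + τ * s ^ 2 + s ^ 3 := by positivity
        linarith
      have h4 := mul_le_mul_of_nonneg_left h2 (by linarith : 0 ≤ τ - s)
      rw [← e] at h4
      rw [hL]
      linarith
  have hLs : L / 2 ≤ L - lam * s := by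
    have h1 := (hτfacts s le_rfl).2.2.1
    rw [← hL] at h1
    linarith
  -- one step
  have hstep : ∀ η : ℝ, 0 < η → ∀ σ : ℝ, 0 ≤ σ →
      (∀ u, L ≤ u → g u ≤ M + (2 / L - u⁻¹) + η * u + σ) →
      ∀ u, L ≤ u → g u ≤ M + (2 / L - u⁻¹) + η * u + (σ - η * γ) := by
    intro η hη σ hσ hyp u hu
    have hu0 : 0 < u := by linarith
    -- the fourth root
    set τ := Real.sqrt (Real.sqrt u) with hτ
    have hτ4 : τ ^ 4 = u := by
      have e1 : τ ^ 2 = Real.sqrt u := Real.sq_sqrt (Real.sqrt_nonneg _)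
      calc τ ^ 4 = (τ ^ 2) ^ 2 := by ring
        _ = u := by rw [e1]; exact Real.sq_sqrt hu0.le
    have hτ0' : 0 ≤ τ := Real.sqrt_nonneg _
    have hsτ : s ≤ τ := by
      by_contra hcon
      push Not at hcon
      have : τ ^ 4 < s ^ 4 := pow_lt_pow_left₀ hcon hτ0' (by norm_num)
      rw [hτ4] at this
      linarith
    obtain ⟨f1, f2, f3, f4⟩ := hτfacts τ hsτ
    rw [hτ4] at f2 f3 f4
    have hτ0 : 0 < τ := by linarith
    set t := ⌊τ⌋₊ with ht
    have ht1 : (t : ℝ) ≤ τ := Nat.floor_le hτ0'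
    have ht2 : τ / 2 ≤ t := by
      have := Nat.lt_floor_add_one τ
      linarith
    have ht3 : (1 : ℝ) ≤ t := by linarith
    have ht4 : 1 ≤ t := by exact_mod_cast ht3
    have ht0 : (0 : ℝ) < t := by linarith
    have hdt : (0 : ℝ) < (d : ℝ) ^ t := by positivity
    have hflow := hg.flow u (by linarith) t ht4 (ht1.trans f2)
    have hplace : ∀ v ∈ W d t, L - lam * s ≤ u + sg v * μ - t * lam := by
      intro v _
      have h1 : (t : ℝ) * lam ≤ τ * lam := mul_le_mul_of_nonneg_right ht1 hlam.le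
      have h2 : 0 ≤ (sg v : ℝ) * μ := by positivity
      linarith
    have hγt : γ * t ≤ u / 2 := by
      have h1 : γ * t ≤ lam * τ := mul_le_mul hγlam ht1 ht0.le hlam.le
      linarith
    have hc0 : 0 < u - γ * t := by linarith
    -- the bound for the terms
    have hterm : ∀ v ∈ W d t, g (u + sg v * μ - t * lam) ≤
        M + (2 / L - (u + sg v * μ - t * lam)⁻¹) + η * (u + sg v * μ - t * lam) + σ := by
      intro v hv
      have h1 := hplace v hv
      set y := u + sg v * μ - t * lam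
      have hy0 : 0 < y := by linarith
      rcases lt_or_ge y L with hy | hy
      · have h2 := hM y h1 hy
        have h3 : y⁻¹ ≤ 2 / L := by
          rw [inv_le_comm₀ hy0 (by positivity), inv_div]
          linarith
        have h4 : 0 < η * y := by positivity
        linarith
      · exact hyp y hy
    have hsum : ∑ v ∈ W d t, g (u + sg v * μ - t * lam) ≤
        (d : ℝ) ^ t * (M + (2 / L - (u - γ * t)⁻¹) + η * (u - γ * t) + σ) := by
      refine (Finset.sum_le_sum hterm).trans ?_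
      have h1 := sum_inv_place (by omega : 1 ≤ d) (μ := μ) (lam := lam) (u := u) (t := t)
        (fun v hv => by have := hplace v hv; linarith) (by rw [← hγdef]; exact hc0)
      have h2 := sum_place (by omega : 1 ≤ d) μ lam u t
      rw [← hγdef] at h1 h2
      have e : ∑ v ∈ W d t, (M + (2 / L - (u + sg v * μ - t * lam)⁻¹) +
          η * (u + sg v * μ - t * lam) + σ) =
          (d : ℝ) ^ t * (M + 2 / L + σ) - ∑ v ∈ W d t, (u + sg v * μ - t * lam)⁻¹ +
            η * ∑ v ∈ W d t, (u + sg v * μ - t * lam) := by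
        have e0 : (d : ℝ) ^ t * (M + 2 / L + σ) = ∑ v ∈ W d t, (M + 2 / L + σ) := by
          rw [Finset.sum_const, card_W, nsmul_eq_mul]
          push_cast
          rfl
        rw [e0, Finset.mul_sum, ← Finset.sum_sub_distrib, ← Finset.sum_add_distrib]
        refine Finset.sum_congr rfl fun v _ => ?_
        ring
      rw [e, h2]
      have e2 : (d : ℝ) ^ t * (M + (2 / L - (u - γ * t)⁻¹) + η * (u - γ * t) + σ) =
          (d : ℝ) ^ t * (M + 2 / L + σ) - (d : ℝ) ^ t * (u - γ * t)⁻¹ +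
            η * ((d : ℝ) ^ t * (u - γ * t)) := by ring
      rw [e2]
      linarith
    have hsum' : (∑ v ∈ W d t, g (u + sg v * μ - t * lam)) / (d : ℝ) ^ t ≤
        M + (2 / L - (u - γ * t)⁻¹) + η * (u - γ * t) + σ := by
      rw [div_le_iff₀ hdt]
      linarith
    -- the gain
    have hgain : C / (t : ℝ) ^ 8 ≤ (u - γ * t)⁻¹ - u⁻¹ := by
      have h1 : (u - γ * t)⁻¹ - u⁻¹ = γ * t / (u * (u - γ * t)) := by
        field_simp
        ring
      have h2 : γ * t / (u * u) ≤ γ * t / (u * (u - γ * t)) := by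
        apply div_le_div_of_nonneg_left (by positivity) (by positivity)
        apply mul_le_mul_of_nonneg_left _ hu0.le
        have : 0 < γ * t := by positivity
        linarith
      have h3 : C / (t : ℝ) ^ 8 ≤ γ * t / (u * u) := by
        rw [div_le_div_iff₀ (by positivity) (by positivity)]
        have h4 : 512 * C / γ ≤ τ := by linarith
        rw [div_le_iff₀ hγ0] at h4
        have h5 : (τ / 2) ^ 9 ≤ (t : ℝ) ^ 9 := pow_le_pow_left₀ (by positivity) ht2 9
        have h6 : C * (u * u) = C * τ ^ 8 := by rw [← hτ4]; ring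
        have h7 : γ * t * (t : ℝ) ^ 8 = γ * (t : ℝ) ^ 9 := by ring
        rw [h6, h7]
        have h8 : 512 * C * τ ^ 8 ≤ τ * γ * τ ^ 8 :=
          mul_le_mul_of_nonneg_right h4 (by positivity)
        have h9 : γ * (τ / 2) ^ 9 ≤ γ * (t : ℝ) ^ 9 := mul_le_mul_of_nonneg_left h5 hγ0.le
        have h10 : γ * (τ / 2) ^ 9 = τ * γ * τ ^ 8 / 512 := by ring
        linarith
      linarith
    have h1 := (abs_le.1 hflow).2
    have h2 : η * γ ≤ η * (γ * t) := by
      apply mul_le_mul_of_nonneg_left _ hη.le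
      exact le_mul_of_one_le_right hγ0.le ht3
    have h3 : η * (u - γ * t) = η * u - η * (γ * t) := by ring
    linarith
  -- the window is non-empty
  have hM0 : 0 ≤ M := (hg.nonneg _).trans (hM (L - lam * s) le_rfl (by
    have : 0 < lam * s := by positivity
    linarith))
  intro u hu
  have hu0 : 0 < u := by linarith
  have hinv : 0 < u⁻¹ := by positivity
  -- for every `η`
  have hη : ∀ η : ℝ, 0 < η → g u ≤ M + (2 / L - u⁻¹) + η * u := by
    intro η hη
    have hind : ∀ n : ℕ, ∀ x, L ≤ x → g x ≤ M + (2 / L - x⁻¹) + η * x +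
        max 0 (2 - n * (η * γ)) := by
      intro n
      induction n with
      | zero =>
        intro x hx
        have h1 := hg.le_two x
        have hx0 : 0 < x := by linarith
        have h2 : x⁻¹ ≤ 2 / L := by
          rw [inv_le_comm₀ hx0 (by positivity), inv_div]
          linarith
        have h3 : 0 < η * x := by positivity
        rw [Nat.cast_zero, zero_mul, sub_zero, max_eq_right (by norm_num : (0 : ℝ) ≤ 2)]
        linarith
      | succ n ih =>
        intro x hx
        have h1 := hstep η hη _ (le_max_left _ _) ih x hx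
        have h2 : max 0 (2 - (n : ℝ) * (η * γ)) - η * γ ≤
            max 0 (2 - ((n + 1 : ℕ) : ℝ) * (η * γ)) := by
          have h3 : 0 < η * γ := by positivity
          rcases le_total 0 (2 - (n : ℝ) * (η * γ)) with h | h
          · rw [max_eq_right h]
            refine le_trans (le_of_eq ?_) (le_max_right _ _)
            push_cast
            ring
          · rw [max_eq_left h]
            refine le_trans ?_ (le_max_left _ _)
            linarith
        linarith
    have hηγ : 0 < η * γ := by positivity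
    obtain ⟨n, hn⟩ := exists_nat_ge (2 / (η * γ))
    rw [div_le_iff₀ hηγ] at hn
    have h1 := hind n u hu
    rw [max_eq_left (by linarith)] at h1
    linarith
  have h2 : ∀ ε : ℝ, 0 < ε → g u ≤ M + 2 / L + ε := by
    intro ε hε
    have h3 := hη (ε / u) (by positivity)
    have h4 : ε / u * u = ε := by field_simp
    linarith
  exact le_of_forall_pos_le_add h2

end Pool.Agent.Helper8.ND
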