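import Pool.Agent.Helper8.ND.Shift
import Pool.Agent.Helper8.ND.Approx

/-!
# Slow variation of the densities

`g u` stands for the density of a set in `[e ^ u, 2 e ^ u)`. If `g` is (up to a small error) the
average of its values at the places of the random walk with steps `-log d` (probability `1 / d`) and
`log m - log d`, then `g` is nearly constant on intervals of length `log d * u ^ (1/4)`.
-/

set_option autoImplicit false

namespace Pool.Agent.Helper8.ND

open Pool.Agent.Helper52.Tao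

/-- The hypotheses on the density function `g`. -/
structure Good (d : ℕ) (μ lam c C u₁ : ℝ) (g : ℝ → ℝ) : Prop where
  nonneg : ∀ u, 0 ≤ g u
  le_two : ∀ u, g u ≤ 2
  lip : ∀ u h, 0 ≤ u → 0 ≤ h → h ≤ 1 / 2 → |g (u + h) - g u| ≤ 10 * h + 2 * Real.exp (-u)
  flow : ∀ u, u₁ ≤ u → ∀ t : ℕ, 1 ≤ t → (t : ℝ) ≤ c * u →
    |g u - (∑ v ∈ W d t, g (u + sg v * μ - t * lam)) / (d : ℝ) ^ t| ≤ C / (t : ℝ) ^ 8

variable {d : ℕ} {μ lam c C u₁ : ℝ} {g : ℝ → ℝ}

theorem Good.lip2 (hg : Good d μ lam c C u₁ g) {x y w ε : ℝ} (hw : 0 ≤ w) (hx : w ≤ x) (hy : w ≤ y)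
    (h : |x - y| ≤ ε) (hε : ε ≤ 1 / 2) : |g x - g y| ≤ 10 * ε + 2 * Real.exp (-w) := by
  have h1 := abs_le.1 h
  rcases le_total y x with hxy | hxy
  · have h2 := hg.lip y (x - y) (hw.trans hy) (by linarith) (by linarith)
    rw [add_sub_cancel] at h2
    have h3 : Real.exp (-y) ≤ Real.exp (-w) := Real.exp_le_exp.2 (by linarith)
    linarith
  · have h2 := hg.lip x (y - x) (hw.trans hx) (by linarith) (by linarith)
    rw [add_sub_cancel] at h2
    have h3 : Real.exp (-x) ≤ Real.exp (-w) := Real.exp_le_exp.2 (by linarith)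
    rw [abs_sub_comm]
    linarith

theorem Good.abs_le_two (hg : Good d μ lam c C u₁ g) (u : ℝ) : |g u| ≤ 2 := by
  rw [abs_of_nonneg (hg.nonneg u)]; exact hg.le_two u

/-- Comparison of `g (u + h)` and `g u` through an approximation `i μ - j lam ≈ h`. -/
theorem Good.compare (hd : 2 ≤ d) (hg : Good d μ lam c C u₁ g) (hC : 0 ≤ C) (hμ : 0 ≤ μ)
    {u h ε w : ℝ} {T j : ℕ} {i : ℤ} (hT : 1 ≤ T) (hu : u₁ ≤ u) (huh : u₁ ≤ u + h)
    (hTj : ((T + j : ℕ) : ℝ) ≤ c * u) (hTh : (T : ℝ) ≤ c * (u + h)) (hw : 0 ≤ w)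
    (hw1 : w ≤ u + h - T * lam - 1) (hi : |(i : ℝ) * μ - j * lam - h| ≤ ε) (hε : ε ≤ 1 / 2) :
    |g (u + h) - g u| ≤ 2 * (C / (T : ℝ) ^ 8) + (j + |(i : ℝ)|) * (2 / Real.sqrt (T * vv d)) +
      (10 * ε + 2 * Real.exp (-w)) := by
  have hd0 : (0 : ℝ) < d := by
    have : 0 < d := by omega
    exact_mod_cast this
  have hdT : (0 : ℝ) < (d : ℝ) ^ T := by positivity
  have hdj : (0 : ℝ) < (d : ℝ) ^ j := by positivity
  have hT0 : (0 : ℝ) < T := by exact_mod_cast hT
  -- (a), (b)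
  have ha := hg.flow u hu (T + j) (by omega) hTj
  have hb := hg.flow (u + h) huh T hT hTh
  have ha' : C / ((T + j : ℕ) : ℝ) ^ 8 ≤ C / (T : ℝ) ^ 8 := by
    apply div_le_div_of_nonneg_left hC (by positivity)
    apply pow_le_pow_left₀ hT0.le
    push_cast
    linarith [(Nat.cast_nonneg j : (0 : ℝ) ≤ j)]
  -- (c)
  set G : ℤ → ℝ := fun s => g (u + s * μ - ((T + j : ℕ) : ℝ) * lam) with hG
  have hGB : ∀ s, |G s| ≤ 2 := fun s => hg.abs_le_two _
  have e1 : ∑ v ∈ W d (T + j), g (u + sg v * μ - ((T + j : ℕ) : ℝ) * lam) =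
      ∑ v' ∈ W d j, ∑ v ∈ W d T, G (sg v + (sg v' : ℤ)) := by
    rw [sum_W_add, Finset.sum_comm]
    refine Finset.sum_congr rfl fun v' _ => Finset.sum_congr rfl fun v _ => ?_
    rw [sg_append, hG]
    push_cast
    rfl
  have hc : |∑ v' ∈ W d j, ∑ v ∈ W d T, G (sg v + (sg v' : ℤ)) -
      (d : ℝ) ^ j * ∑ v ∈ W d T, G (sg v + i)| ≤
      (d : ℝ) ^ j * ((j + |(i : ℝ)|) * (2 * (d : ℝ) ^ T / Real.sqrt (T * vv d))) := by
    have e2 : (d : ℝ) ^ j * ∑ v ∈ W d T, G (sg v + i) =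
        ∑ v' ∈ W d j, ∑ v ∈ W d T, G (sg v + i) := by
      rw [Finset.sum_const, card_W, nsmul_eq_mul]
      push_cast
      rfl
    rw [e2, ← Finset.sum_sub_distrib]
    refine (Finset.abs_sum_le_sum_abs _ _).trans ?_
    have h3 : ∀ v' ∈ W d j, |∑ v ∈ W d T, G (sg v + (sg v' : ℤ)) - ∑ v ∈ W d T, G (sg v + i)| ≤
        (j + |(i : ℝ)|) * (2 * (d : ℝ) ^ T / Real.sqrt (T * vv d)) := by
      intro v' hv'
      refine (shift_int hd hT hGB i (sg v' : ℤ)).trans ?_
      apply mul_le_mul_of_nonneg_right _ (by positivity)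
      have h4 : (sg v' : ℝ) ≤ j := by
        have := sg_le_length v'
        rw [length_of_mem_W hv'] at this
        exact_mod_cast this
      push_cast
      calc |(sg v' : ℝ) - i| ≤ |(sg v' : ℝ)| + |(i : ℝ)| := abs_sub _ _
        _ = (sg v' : ℝ) + |(i : ℝ)| := by rw [Nat.abs_cast]
        _ ≤ j + |(i : ℝ)| := by linarith
    refine (Finset.sum_le_sum h3).trans (le_of_eq ?_)
    rw [Finset.sum_const, card_W, nsmul_eq_mul]
    push_cast
    rfl
  -- (d)
  have hdd : |∑ v ∈ W d T, G (sg v + i) - ∑ v ∈ W d T, g (u + h + sg v * μ - T * lam)| ≤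
      (d : ℝ) ^ T * (10 * ε + 2 * Real.exp (-w)) := by
    rw [← Finset.sum_sub_distrib]
    refine (Finset.abs_sum_le_sum_abs _ _).trans ?_
    have h3 : ∀ v ∈ W d T, |G (sg v + i) - g (u + h + sg v * μ - T * lam)| ≤
        10 * ε + 2 * Real.exp (-w) := by
      intro v _
      have h5 : 0 ≤ (sg v : ℝ) * μ := by positivity
      have h6 := abs_le.1 hi
      have e3 : u + (((sg v : ℤ) + i : ℤ) : ℝ) * μ - ((T + j : ℕ) : ℝ) * lam =
          (u + h + sg v * μ - T * lam) + (i * μ - j * lam - h) := by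
        push_cast; ring
      refine hg.lip2 hw ?_ ?_ ?_ hε
      · rw [e3]; linarith
      · linarith
      · rw [e3, add_sub_cancel_left]; exact hi
    refine (Finset.sum_le_sum h3).trans (le_of_eq ?_)
    rw [Finset.sum_const, card_W, nsmul_eq_mul]
    push_cast
    rfl
  rw [e1] at ha
  -- normalisation
  set S1 := ∑ v' ∈ W d j, ∑ v ∈ W d T, G (sg v + (sg v' : ℤ)) with hS1
  set S2 := ∑ v ∈ W d T, G (sg v + i) with hS2
  set S3 := ∑ v ∈ W d T, g (u + h + sg v * μ - T * lam) with hS3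
  have f1 : |S1 / (d : ℝ) ^ (T + j) - S2 / (d : ℝ) ^ T| ≤
      (j + |(i : ℝ)|) * (2 / Real.sqrt (T * vv d)) := by
    have e4 : S1 / (d : ℝ) ^ (T + j) - S2 / (d : ℝ) ^ T =
        (S1 - (d : ℝ) ^ j * S2) / ((d : ℝ) ^ T * (d : ℝ) ^ j) := by
      rw [pow_add]; field_simp
    rw [e4, abs_div, abs_of_pos (mul_pos hdT hdj), div_le_iff₀ (mul_pos hdT hdj)]
    refine hc.trans (le_of_eq ?_)
    ring
  have f2 : |S2 / (d : ℝ) ^ T - S3 / (d : ℝ) ^ T| ≤ 10 * ε + 2 * Real.exp (-w) := by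
    rw [← sub_div, abs_div, abs_of_pos hdT, div_le_iff₀ hdT]
    refine hdd.trans (le_of_eq ?_)
    ring
  have a1 := abs_le.1 ha
  have a2 := abs_le.1 hb
  have a3 := abs_le.1 f1
  have a4 := abs_le.1 f2
  rw [abs_le]
  constructor <;> linarith

/-- `g` is nearly constant on short intervals. -/
theorem near {d m : ℕ} (hd : 2 ≤ d) (hdm : d < m) (hco : Nat.Coprime m d) {c C : ℝ} (hc : 0 < c)
    (hC : 0 < C) :
    ∃ K S₀ : ℝ, 0 < K ∧ 4 ≤ S₀ ∧ ∀ (u₁ : ℝ) (g : ℝ → ℝ),
      Good d (Real.log m) (Real.log d) c C u₁ g → ∀ s : ℝ, S₀ ≤ s → 2 * u₁ ≤ s ^ 4 →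
      ∀ h : ℝ, |h| ≤ Real.log d * s → |g (s ^ 4 + h) - g (s ^ 4)| ≤ K / Real.log s := by
  have hm3 : (3 : ℝ) ≤ m := by
    have : 3 ≤ m := by omega
    exact_mod_cast this
  have hd2 : (2 : ℝ) ≤ d := by exact_mod_cast hd
  have hμ : 0 < Real.log m := Real.log_pos (by linarith)
  have hlam : 0 < Real.log d := Real.log_pos (by linarith)
  have hlm : Real.log d < Real.log m := Real.log_lt_log (by linarith) (by exact_mod_cast hdm)
  obtain ⟨κ, hκ, happ⟩ := approx hd hdm hco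
  set μ := Real.log m with hμdef
  set lam := Real.log d with hlamdef
  have hv := vv_pos hd
  set c' := min (c / 4) (1 / (4 * lam)) with hc'
  have hc'0 : 0 < c' := lt_min (by positivity) (by positivity)
  have hc'1 : c' ≤ c / 4 := min_le_left _ _
  have hc'2 : c' * lam ≤ 1 / 4 := by
    calc c' * lam ≤ 1 / (4 * lam) * lam := mul_le_mul_of_nonneg_right (min_le_right _ _) hlam.le
      _ = 1 / 4 := by field_simp
  set ρ := Real.sqrt (c' * vv d / 2) with hρ
  have hρ0 : 0 < ρ := Real.sqrt_pos.2 (by positivity)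
  refine ⟨4 * C / c' + 8 / ρ + 20 * κ * μ + 8, 4 + 4 / c + 4 * lam + 2 / c' +
    Real.exp (2 * κ + 4 * κ * μ), by positivity, ?_, ?_⟩
  · have : 0 < 4 / c + 4 * lam + 2 / c' + Real.exp (2 * κ + 4 * κ * μ) := by positivity
    linarith
  intro u₁ g hg s hs hu₁ h hh
  have q1 : 0 < 4 / c := by positivity
  have q2 : 0 < 4 * lam := by positivity
  have q3 : 0 < 2 / c' := by positivity
  have q4 : 0 < Real.exp (2 * κ + 4 * κ * μ) := Real.exp_pos _
  have hs4 : 4 ≤ s := by linarith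
  have hs0 : 0 < s := by linarith
  have hs1 : 1 ≤ s := by linarith
  set u := s ^ 4 with hu
  have hs3 : s ≤ s ^ 3 := by
    calc s = s ^ 1 := (pow_one s).symm
      _ ≤ s ^ 3 := pow_le_pow_right₀ hs1 (by norm_num)
  have hus : u = s * s ^ 3 := by rw [hu]; ring
  have hsu : s ≤ u := by
    calc s = s ^ 1 := (pow_one s).symm
      _ ≤ s ^ 4 := pow_le_pow_right₀ hs1 (by norm_num)
  have hu0 : 0 < u := by linarith
  -- consequences of the size of `s`
  have g1 : s ≤ c * u / 4 := by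
    have h1 : 4 / c ≤ s ^ 3 := by linarith
    rw [div_le_iff₀ hc] at h1
    have h2 := mul_le_mul_of_nonneg_left h1 hs0.le
    rw [hus]
    linarith
  have g2 : lam * s ≤ u / 4 := by
    have h1 : 4 * lam ≤ s ^ 3 := by linarith
    have h2 := mul_le_mul_of_nonneg_left h1 hs0.le
    rw [hus]
    linarith
  have g3 : 2 ≤ c' * u := by
    have h1 : 2 / c' ≤ u := by linarith
    rw [div_le_iff₀ hc'0] at h1
    linarith
  have hls : 2 * κ + 4 * κ * μ ≤ Real.log s := by
    rw [Real.le_log_iff_exp_le hs0]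
    linarith
  have hκμ : 0 < 4 * κ * μ := by positivity
  have hls0 : 0 < Real.log s := by linarith
  have hlss : Real.log s ≤ s := by
    have := Real.log_le_sub_one_of_pos hs0
    linarith
  have hlsu : Real.log s ≤ u := hlss.trans hsu
  -- the choice of `N` and `T`
  set N := ⌊Real.log s / κ⌋₊ with hN
  have hN1 : (N : ℝ) * κ ≤ Real.log s := by
    have := Nat.floor_le (div_nonneg hls0.le hκ.le)
    rwa [le_div_iff₀ hκ] at this
  have hN2 : Real.log s / (2 * κ) ≤ N := by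
    have h1 := Nat.lt_floor_add_one (Real.log s / κ)
    have h2 : 2 ≤ Real.log s / κ := by rw [le_div_iff₀ hκ]; linarith
    have h3 : Real.log s / (2 * κ) = Real.log s / κ / 2 := by rw [mul_comm, div_div]
    rw [h3]
    linarith
  have hN3 : 2 * μ ≤ N := by
    refine le_trans ?_ hN2
    rw [le_div_iff₀ (by positivity)]
    linarith
  have hNpos : 0 < (N : ℝ) := by linarith
  have hN4 : 1 ≤ N := by exact_mod_cast hNpos
  have hN5 : (1 : ℝ) ≤ N := by exact_mod_cast hN4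
  obtain ⟨j, i, hj, hi⟩ := happ N hN4 h
  have hj' : (j : ℝ) ≤ s := by
    refine hj.trans ?_
    calc Real.exp (κ * N) ≤ Real.exp (Real.log s) := Real.exp_le_exp.2 (by linarith)
      _ = s := Real.exp_log hs0
  set T := ⌊c' * u⌋₊ with hT
  have hT1 : (T : ℝ) ≤ c' * u := Nat.floor_le (by positivity)
  have hT2 : c' * u / 2 ≤ T := by
    have h1 := Nat.lt_floor_add_one (c' * u)
    linarith
  have hTpos : (0 : ℝ) < T := by linarith
  have hT3 : 1 ≤ T := by exact_mod_cast hTpos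
  have hT4 : (1 : ℝ) ≤ T := by exact_mod_cast hT3
  have hTc : (T : ℝ) ≤ c * u / 4 := by
    have := mul_le_mul_of_nonneg_right hc'1 hu0.le
    linarith
  have hTlam : (T : ℝ) * lam ≤ u / 4 := by
    calc (T : ℝ) * lam ≤ c' * u * lam := mul_le_mul_of_nonneg_right hT1 hlam.le
      _ = c' * lam * u := by ring
      _ ≤ 1 / 4 * u := mul_le_mul_of_nonneg_right hc'2 hu0.le
      _ = u / 4 := by ring
  have hh2 := abs_le.1 hh
  -- the comparison
  have hεN : μ / N ≤ 1 / 2 := by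
    rw [div_le_iff₀ hNpos]; linarith
  have hmain := hg.compare hd hC.le hμ.le (u := u) (h := h) (ε := μ / N) (w := u / 4) (T := T)
    (j := j) (i := i) hT3 (by linarith) (by linarith) (by push_cast; linarith)
    (by
      have h1 : c * (u / 2) ≤ c * (u + h) := mul_le_mul_of_nonneg_left (by linarith) hc.le
      have h2 : 0 < c * u := by positivity
      linarith) (by positivity) (by linarith) hi hεN
  refine hmain.trans ?_
  -- the four terms
  have t1 : 2 * (C / (T : ℝ) ^ 8) ≤ (4 * C / c') / Real.log s := by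
    have h1 : (T : ℝ) ≤ (T : ℝ) ^ 8 := by
      calc (T : ℝ) = (T : ℝ) ^ 1 := (pow_one _).symm
        _ ≤ (T : ℝ) ^ 8 := pow_le_pow_right₀ hT4 (by norm_num)
    have h2 : c' * Real.log s / 2 ≤ (T : ℝ) ^ 8 := by
      have := mul_le_mul_of_nonneg_left hlsu hc'0.le
      linarith
    calc 2 * (C / (T : ℝ) ^ 8) ≤ 2 * (C / (c' * Real.log s / 2)) := by gcongr
      _ = (4 * C / c') / Real.log s := by field_simp; ring
  have t2 : (j + |(i : ℝ)|) * (2 / Real.sqrt (T * vv d)) ≤ (8 / ρ) / Real.log s := by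
    have h1 : |(i : ℝ)| ≤ 3 * s := by
      have h2 := abs_le.1 hi
      have h3 : μ / N ≤ μ := div_le_self hμ.le hN5
      have h4 : (j : ℝ) * lam ≤ s * μ := mul_le_mul hj' hlm.le hlam.le hs0.le
      have h4' : 0 ≤ (j : ℝ) * lam := by positivity
      have h5 : lam * s ≤ μ * s := mul_le_mul_of_nonneg_right hlm.le hs0.le
      have h6 : μ ≤ s * μ := le_mul_of_one_le_left hμ.le hs1
      have h7 : |(i : ℝ) * μ| ≤ 3 * s * μ := by
        rw [abs_le]
        constructor <;> linarith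
      rw [abs_mul, abs_of_pos hμ] at h7
      exact le_of_mul_le_mul_right h7 hμ
    have h8 : ρ * s ^ 2 ≤ Real.sqrt (T * vv d) := by
      rw [hρ]
      apply Real.le_sqrt_of_sq_le
      rw [mul_pow, Real.sq_sqrt (by positivity), ← pow_mul]
      have h9 : c' * vv d / 2 * s ^ (2 * 2) = (c' * u / 2) * vv d := by
        rw [hu]; ring
      rw [h9]
      exact mul_le_mul_of_nonneg_right hT2 hv.le
    have h10 : (0 : ℝ) < ρ * s ^ 2 := by positivity
    calc (j + |(i : ℝ)|) * (2 / Real.sqrt (T * vv d)) ≤ (s + 3 * s) * (2 / (ρ * s ^ 2)) := by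
          gcongr
      _ = (8 / ρ) / s := by field_simp; ring
      _ ≤ (8 / ρ) / Real.log s := by gcongr
  have t3 : 10 * (μ / N) ≤ (20 * κ * μ) / Real.log s := by
    have h1 : 0 < Real.log s / (2 * κ) := by positivity
    calc 10 * (μ / N) ≤ 10 * (μ / (Real.log s / (2 * κ))) := by gcongr
      _ = (20 * κ * μ) / Real.log s := by field_simp; ring
  have t4 : 2 * Real.exp (-(u / 4)) ≤ 8 / Real.log s := by
    have h1 : u / 4 ≤ Real.exp (u / 4) := by
      have := Real.add_one_le_exp (u / 4)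
      linarith
    rw [Real.exp_neg]
    calc 2 * (Real.exp (u / 4))⁻¹ ≤ 2 * (u / 4)⁻¹ := by gcongr
      _ = 8 / u := by field_simp; norm_num
      _ ≤ 8 / Real.log s := by gcongr
  have e : (4 * C / c' + 8 / ρ + 20 * κ * μ + 8) / Real.log s = (4 * C / c') / Real.log s +
      (8 / ρ) / Real.log s + (20 * κ * μ) / Real.log s + 8 / Real.log s := by
    rw [add_div, add_div, add_div]
  rw [e]
  linarith

end Pool.Agent.Helper8.ND
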