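import Pool.Agent.Helper8.ND.Flow
import Pool.Agent.Helper8.ND.Conv

/-!
# Invariant sets have a density at every scale
-/

set_option autoImplicit false

namespace Pool.Agent.Helper8.ND

open Pool.Agent.Helper68.Moeller Pool.Agent.Helper52.Tao

/-- The number of integers in `[a, 2a)`. -/
theorem abs_ncard_sub {a : ℝ} (ha : 0 ≤ a) :
    |(({n : ℤ | a ≤ n ∧ (n : ℝ) < 2 * a}.ncard : ℕ) : ℝ) - a| ≤ 1 := by
  have h : {k : ℤ | a ≤ k ∧ (k : ℝ) < 2 * a} = ((Finset.Ico ⌈a⌉ ⌈2 * a⌉ : Finset ℤ) : Set ℤ) := by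
    ext k
    rw [Finset.mem_coe, Finset.mem_Ico, Set.mem_ofPred_eq, Int.ceil_le, Int.lt_ceil]
  rw [h, Set.ncard_coe_finset, Int.card_Ico]
  have h1 := Int.ceil_lt_add_one (2 * a)
  have h2 := Int.le_ceil a
  have h1' := Int.le_ceil (2 * a)
  have h2' := Int.ceil_lt_add_one a
  have h3 : ⌈a⌉ ≤ ⌈2 * a⌉ := Int.ceil_mono (by linarith)
  have h4 : (((⌈2 * a⌉ - ⌈a⌉).toNat : ℕ) : ℝ) = (⌈2 * a⌉ : ℝ) - (⌈a⌉ : ℝ) := by
    have : (((⌈2 * a⌉ - ⌈a⌉).toNat : ℕ) : ℤ) = ⌈2 * a⌉ - ⌈a⌉ := Int.toNat_of_nonneg (by omega)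
    exact_mod_cast this
  rw [h4, abs_le]
  constructor <;> linarith

theorem fd_add_compl (G : Set ℤ) {a : ℝ} (ha : 0 < a) : |fd G a + fd Gᶜ a - 1| ≤ 1 / a := by
  have h1 : {n : ℤ | a ≤ n ∧ (n : ℝ) < 2 * a} =
      {n : ℤ | a ≤ n ∧ (n : ℝ) < 2 * a ∧ n ∈ G} ∪ {n : ℤ | a ≤ n ∧ (n : ℝ) < 2 * a ∧ n ∈ Gᶜ} := by
    ext n
    simp only [Set.mem_union, Set.mem_ofPred_eq, Set.mem_compl_iff]
    tauto
  have h2 : Disjoint {n : ℤ | a ≤ n ∧ (n : ℝ) < 2 * a ∧ n ∈ G}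
      {n : ℤ | a ≤ n ∧ (n : ℝ) < 2 * a ∧ n ∈ Gᶜ} :=
    Set.disjoint_left.2 fun n hn hn' => hn'.2.2 hn.2.2
  have h3 := Set.ncard_union_eq h2 (finite_Y G a) (finite_Y Gᶜ a)
  rw [← h1] at h3
  have h4 := abs_ncard_sub ha.le
  rw [h3] at h4
  push_cast at h4
  have e : fd G a + fd Gᶜ a - 1 = ((({n : ℤ | a ≤ n ∧ (n : ℝ) < 2 * a ∧ n ∈ G}.ncard : ℕ) : ℝ) +
      (({n : ℤ | a ≤ n ∧ (n : ℝ) < 2 * a ∧ n ∈ Gᶜ}.ncard : ℕ) : ℝ) - a) / a := by
    unfold fd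
    field_simp
  rw [e, abs_div, abs_of_pos ha]
  exact div_le_div_of_nonneg_right h4 ha.le

theorem pow_eight_le {x : ℝ} (hx : 4 ≤ x) {t : ℕ} : (t : ℝ) ^ 8 ≤ x ^ (7 * t) := by
  have h1 : (t : ℝ) ≤ 2 ^ t := by exact_mod_cast (Nat.lt_two_pow_self).le
  calc (t : ℝ) ^ 8 ≤ (2 ^ t) ^ 8 := pow_le_pow_left₀ (by positivity) h1 8
    _ = 2 ^ (t * 8) := by rw [pow_mul]
    _ ≤ 2 ^ (2 * (7 * t)) := pow_le_pow_right₀ (by norm_num) (by omega)
    _ = (2 ^ 2) ^ (7 * t) := by rw [pow_mul]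
    _ ≤ x ^ (7 * t) := pow_le_pow_left₀ (by norm_num) (by linarith) _

/-- The flow, in both directions. -/
theorem flow_two {d m : ℕ} (hd : 2 ≤ d) (hdm : d < m) (hco : Nat.Coprime m d) {r : ℤ → ℤ}
    (hr : Admissible d m r) (h1 : Mixing d m r) :
    ∃ C : ℝ, 1 ≤ C ∧ ∀ t : ℕ, 1 ≤ t → ∀ z a : ℝ, 1 ≤ z →
      C * z ^ 2 * ((d : ℝ) * m) ^ (8 * t) ≤ a → ∀ G : Set ℤ, TInv d m r G z →
        |fd G a - (∑ v ∈ W d t, fd G (a * (m : ℝ) ^ sg v / (d : ℝ) ^ t)) / (d : ℝ) ^ t| ≤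
          C / (t : ℝ) ^ 8 := by
  obtain ⟨C, hC, hflow⟩ := flow_le hd hdm hco hr h1 8
  refine ⟨C + 3, by linarith, ?_⟩
  intro t ht z a hz ha G hG
  have hd1R : (1 : ℝ) ≤ d := by exact_mod_cast (by omega : 1 ≤ d)
  have hm1R : (1 : ℝ) ≤ m := by exact_mod_cast (by omega : 1 ≤ m)
  have hd2 : (2 : ℝ) ≤ d := by exact_mod_cast hd
  have hm3 : (3 : ℝ) ≤ m := by exact_mod_cast (by omega : 3 ≤ m)
  have hdm4 : (4 : ℝ) ≤ (d : ℝ) * m := by nlinarith
  have ht0 : (0 : ℝ) < t := by exact_mod_cast ht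
  have hdt : (0 : ℝ) < (d : ℝ) ^ t := by positivity
  have hz2 : 1 ≤ z ^ 2 := one_le_pow₀ hz
  have hP : (1 : ℝ) ≤ ((d : ℝ) * m) ^ (8 * t) := one_le_pow₀ (by linarith)
  have ha' : C * z ^ 2 * ((d : ℝ) * m) ^ (8 * t) ≤ a := by
    refine le_trans ?_ ha
    gcongr
    linarith
  have ha3 : 3 * ((d : ℝ) * m) ^ (8 * t) ≤ a := by
    refine le_trans ?_ ha
    apply mul_le_mul_of_nonneg_right _ (by positivity)
    nlinarith
  have ha0 : 0 < a := by linarith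
  -- the reciprocal of the places
  have hinv : (d : ℝ) ^ t / a ≤ 1 / (t : ℝ) ^ 8 := by
    rw [div_le_div_iff₀ ha0 (by positivity), one_mul]
    have h2 := pow_eight_le hdm4 (t := t)
    have h3 : (d : ℝ) ^ t ≤ ((d : ℝ) * m) ^ t :=
      pow_le_pow_left₀ (by positivity) (le_mul_of_one_le_right (by linarith) hm1R) t
    calc (d : ℝ) ^ t * (t : ℝ) ^ 8 ≤ ((d : ℝ) * m) ^ t * ((d : ℝ) * m) ^ (7 * t) := by gcongr
      _ = ((d : ℝ) * m) ^ (8 * t) := by rw [← pow_add]; congr 1; ring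
      _ ≤ a := by linarith
  have hinv1 : 1 / a ≤ 1 / (t : ℝ) ^ 8 := by
    refine le_trans ?_ hinv
    exact div_le_div_of_nonneg_right (one_le_pow₀ hd1R) ha0.le
  have hrp : (t : ℝ) ^ (-(8 : ℝ)) = 1 / (t : ℝ) ^ 8 := by
    rw [Real.rpow_neg ht0.le, one_div]
    congr 1
    exact_mod_cast Real.rpow_natCast (t : ℝ) 8
  have hup := hflow t ht z a hz ha' G hG
  have hlo := hflow t ht z a hz ha' Gᶜ hG.compl
  rw [hrp] at hup hlo
  set S := ∑ v ∈ W d t, fd G (a * (m : ℝ) ^ sg v / (d : ℝ) ^ t) with hS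
  set S' := ∑ v ∈ W d t, fd Gᶜ (a * (m : ℝ) ^ sg v / (d : ℝ) ^ t) with hS'
  have hSS : S + S' ≤ (d : ℝ) ^ t * (1 + 1 / (t : ℝ) ^ 8) := by
    rw [hS, hS', ← Finset.sum_add_distrib]
    have h2 : ∀ v ∈ W d t, fd G (a * (m : ℝ) ^ sg v / (d : ℝ) ^ t) +
        fd Gᶜ (a * (m : ℝ) ^ sg v / (d : ℝ) ^ t) ≤ 1 + 1 / (t : ℝ) ^ 8 := by
      intro v _
      have h3 : 0 < a * (m : ℝ) ^ sg v / (d : ℝ) ^ t := by positivity
      have h4 := (abs_le.1 (fd_add_compl G h3)).2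
      have h5 : 1 / (a * (m : ℝ) ^ sg v / (d : ℝ) ^ t) ≤ (d : ℝ) ^ t / a := by
        rw [one_div, inv_div]
        apply div_le_div_of_nonneg_left hdt.le ha0
        exact le_mul_of_one_le_right ha0.le (one_le_pow₀ hm1R)
      linarith
    refine (Finset.sum_le_sum h2).trans (le_of_eq ?_)
    rw [Finset.sum_const, card_W, nsmul_eq_mul]
    push_cast
    rfl
  have hSS' : S / (d : ℝ) ^ t + S' / (d : ℝ) ^ t ≤ 1 + 1 / (t : ℝ) ^ 8 := by
    rw [← add_div, div_le_iff₀ hdt]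
    linarith
  have h6 := (abs_le.1 (fd_add_compl G ha0)).1
  have e : (C + 3) / (t : ℝ) ^ 8 = C * (1 / (t : ℝ) ^ 8) + 3 * (1 / (t : ℝ) ^ 8) := by ring
  have h7 : 0 < 1 / (t : ℝ) ^ 8 := by positivity
  rw [e, abs_le]
  constructor <;> linarith

/-- The densities vary slowly. -/
theorem fd_lip (G : Set ℤ) {a ρ : ℝ} (ha : 1 ≤ a) (hρ : 1 ≤ ρ) :
    |fd G (ρ * a) - fd G a| ≤ 5 * (ρ - 1) + 2 / a := by
  have ha0 : 0 < a := by linarith
  have hρ0 : 0 < ρ := by linarith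
  set N := (({n : ℤ | a ≤ n ∧ (n : ℝ) < 2 * a ∧ n ∈ G}.ncard : ℕ) : ℝ) with hN
  set N' := (({n : ℤ | ρ * a ≤ n ∧ (n : ℝ) < 2 * (ρ * a) ∧ n ∈ G}.ncard : ℕ) : ℝ) with hN'
  have hf := finite_Y G a
  have hf' := finite_Y G (ρ * a)
  have haρ : a ≤ ρ * a := le_mul_of_one_le_left ha0.le hρ
  have h1 : {n : ℤ | a ≤ n ∧ (n : ℝ) < 2 * a ∧ n ∈ G} ⊆
      {n : ℤ | ρ * a ≤ n ∧ (n : ℝ) < 2 * (ρ * a) ∧ n ∈ G} ∪
      {n : ℤ | a ≤ n ∧ (n : ℝ) < a + (ρ - 1) * a} := by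
    rintro n ⟨b1, b2, b3⟩
    by_cases h : ρ * a ≤ n
    · left; exact ⟨h, by linarith, b3⟩
    · right; exact ⟨b1, by push Not at h; linarith⟩
  have h2 : {n : ℤ | ρ * a ≤ n ∧ (n : ℝ) < 2 * (ρ * a) ∧ n ∈ G} ⊆
      {n : ℤ | a ≤ n ∧ (n : ℝ) < 2 * a ∧ n ∈ G} ∪
      {n : ℤ | 2 * a ≤ n ∧ (n : ℝ) < 2 * a + 2 * ((ρ - 1) * a)} := by
    rintro n ⟨b1, b2, b3⟩
    by_cases h : (n : ℝ) < 2 * a
    · left; exact ⟨by linarith, h, b3⟩
    · right; exact ⟨by push Not at h; linarith, by linarith⟩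
  have hρa : 0 ≤ (ρ - 1) * a := mul_nonneg (by linarith) ha0.le
  have c1 := ncard_Ico_le a hρa
  have c2 := ncard_Ico_le (2 * a) (by linarith : 0 ≤ 2 * ((ρ - 1) * a))
  have d1 : N ≤ N' + ((ρ - 1) * a + 1) := by
    have e1 := (Set.ncard_le_ncard h1 (hf'.union (finite_Ico _ _))).trans (Set.ncard_union_le _ _)
    have e2 : N ≤ N' + (({n : ℤ | a ≤ n ∧ (n : ℝ) < a + (ρ - 1) * a}.ncard : ℕ) : ℝ) := by
      rw [hN, hN']; exact_mod_cast e1
    linarith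
  have d2 : N' ≤ N + (2 * ((ρ - 1) * a) + 1) := by
    have e1 := (Set.ncard_le_ncard h2 (hf.union (finite_Ico _ _))).trans (Set.ncard_union_le _ _)
    have e2 : N' ≤ N + (({n : ℤ | 2 * a ≤ n ∧
        (n : ℝ) < 2 * a + 2 * ((ρ - 1) * a)}.ncard : ℕ) : ℝ) := by
      rw [hN, hN']; exact_mod_cast e1
    linarith
  have hN0 : 0 ≤ N := by positivity
  have hN2 : N ≤ 2 * a := by
    have := fd_le_two G ha
    unfold fd at this
    rwa [div_le_iff₀ ha0] at this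
  have e : fd G (ρ * a) - fd G a = (N' - ρ * N) / (ρ * a) := by
    unfold fd
    rw [← hN, ← hN']
    field_simp
  have h5 : |N' - ρ * N| ≤ 5 * (ρ - 1) * a + 2 := by
    have h6 : (ρ - 1) * N ≤ (ρ - 1) * (2 * a) := mul_le_mul_of_nonneg_left hN2 (by linarith)
    have h7 : 0 ≤ (ρ - 1) * N := mul_nonneg (by linarith) hN0
    rw [abs_le]
    constructor <;> linarith
  rw [e, abs_div, abs_of_pos (by positivity : 0 < ρ * a), div_le_iff₀ (by positivity)]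
  refine h5.trans ?_
  have h8 : (5 * (ρ - 1) + 2 / a) * (ρ * a) = ρ * (5 * (ρ - 1) * a + 2) := by field_simp
  rw [h8]
  apply le_mul_of_one_le_left _ hρ
  have : 0 ≤ 5 * (ρ - 1) * a := by
    have := mul_nonneg (by linarith : 0 ≤ 5 * (ρ - 1)) ha0.le
    linarith
  linarith

/-- The density function of a set in logarithmic scale. -/
noncomputable def gl (G : Set ℤ) (u : ℝ) : ℝ := if 0 ≤ u then fd G (Real.exp u) else 0

theorem gl_of_nonneg (G : Set ℤ) {u : ℝ} (hu : 0 ≤ u) : gl G u = fd G (Real.exp u) := if_pos hu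

/-- The density function of an invariant set satisfies the hypotheses of `conv`. -/
theorem good_gl {d m : ℕ} (hd : 2 ≤ d) (hdm : d < m) (hco : Nat.Coprime m d) {r : ℤ → ℤ}
    (hr : Admissible d m r) (h1 : Mixing d m r) :
    ∃ c C K : ℝ, 0 < c ∧ 0 < C ∧ 0 ≤ K ∧ ∀ z : ℝ, 1 ≤ z → ∀ G : Set ℤ, TInv d m r G z →
      Good d (Real.log m) (Real.log d) c C (K + 4 * Real.log z) (gl G) := by
  obtain ⟨C, hC1, hflow⟩ := flow_two hd hdm hco hr h1
  have hC0 : 0 < C := by linarith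
  have hd2 : (2 : ℝ) ≤ d := by exact_mod_cast hd
  have hm3 : (3 : ℝ) ≤ m := by exact_mod_cast (by omega : 3 ≤ m)
  have hd0 : (0 : ℝ) < d := by linarith
  have hm0 : (0 : ℝ) < m := by linarith
  have hdm1 : (1 : ℝ) < (d : ℝ) * m := by nlinarith
  have hL : 0 < Real.log ((d : ℝ) * m) := Real.log_pos hdm1
  set L := Real.log ((d : ℝ) * m) with hLdef
  refine ⟨1 / (16 * L), C, 2 * Real.log C, by positivity, hC0, by
    have := Real.log_nonneg hC1; positivity, ?_⟩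
  intro z hz G hG
  have hz0 : 0 < z := by linarith
  have hlz := Real.log_nonneg hz
  have hlC := Real.log_nonneg hC1
  refine ⟨?_, ?_, ?_, ?_⟩
  · intro u
    unfold gl
    split_ifs
    · exact fd_nonneg G (Real.exp_pos u).le
    · exact le_rfl
  · intro u
    unfold gl
    split_ifs with hu
    · exact fd_le_two G (Real.one_le_exp hu)
    · norm_num
  · intro u h hu hh hh2
    rw [gl_of_nonneg G hu, gl_of_nonneg G (by linarith), Real.exp_add, mul_comm]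
    have hexp1 : 1 ≤ Real.exp h := Real.one_le_exp hh
    have hexp2 : Real.exp h ≤ 1 + 2 * h := by
      have h3 := Real.abs_exp_sub_one_sub_id_le (x := h) (by rw [abs_of_nonneg hh]; linarith)
      have h4 := (abs_le.1 h3).2
      nlinarith
    have h5 := fd_lip G (Real.one_le_exp hu) hexp1
    refine h5.trans ?_
    have h6 : 2 / Real.exp u = 2 * Real.exp (-u) := by rw [Real.exp_neg]; rfl
    rw [h6]
    linarith
  · intro u hu t ht htc
    have ht0 : (0 : ℝ) ≤ t := by positivity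
    have hu0 : 0 ≤ u := by linarith
    have h8t : 8 * (t : ℝ) * L ≤ u / 2 := by
      have h2 : (t : ℝ) * (16 * L) ≤ u := by
        calc (t : ℝ) * (16 * L) ≤ 1 / (16 * L) * u * (16 * L) :=
              mul_le_mul_of_nonneg_right htc (by positivity)
          _ = u := by field_simp
      linarith
    have hbig : C * z ^ 2 * ((d : ℝ) * m) ^ (8 * t) ≤ Real.exp u := by
      have e1 : C = Real.exp (Real.log C) := (Real.exp_log hC0).symm
      have e2 : z ^ 2 = Real.exp (2 * Real.log z) := by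
        rw [two_mul, Real.exp_add, Real.exp_log hz0, sq]
      have e3 : ((d : ℝ) * m) ^ (8 * t) = Real.exp (8 * t * L) := by
        rw [hLdef, ← Real.exp_log (by linarith : 0 < (d : ℝ) * m), ← Real.exp_nat_mul,
          Real.log_exp]
        push_cast
        rfl
      rw [e2, e3]
      nth_rewrite 1 [e1]
      rw [← Real.exp_add, ← Real.exp_add, Real.exp_le_exp]
      linarith
    have hmain := hflow t ht z (Real.exp u) hz hbig G hG
    have hplace : ∀ v ∈ W d t, gl G (u + sg v * Real.log m - t * Real.log d) =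
        fd G (Real.exp u * (m : ℝ) ^ sg v / (d : ℝ) ^ t) := by
      intro v _
      have h2 : Real.exp (u + sg v * Real.log m - t * Real.log d) =
          Real.exp u * (m : ℝ) ^ sg v / (d : ℝ) ^ t := by
        rw [Real.exp_sub, Real.exp_add, Real.exp_nat_mul, Real.exp_nat_mul, Real.exp_log hm0,
          Real.exp_log hd0]
      rw [gl_of_nonneg G, h2]
      have h3 : Real.log d ≤ L := by
        rw [hLdef]
        apply Real.log_le_log hd0
        exact le_mul_of_one_le_right hd0.le (by linarith)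
      have h4 : (t : ℝ) * Real.log d ≤ t * L := mul_le_mul_of_nonneg_left h3 ht0
      have h5 : 0 ≤ (sg v : ℝ) * Real.log m :=
        mul_nonneg (by positivity) (Real.log_nonneg (by linarith))
      have h6 : 0 ≤ (t : ℝ) * L := by positivity
      linarith
    rw [gl_of_nonneg G hu0, Finset.sum_congr rfl hplace]
    exact hmain

end Pool.Agent.Helper8.ND
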